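import Pool.Agent.H53.SU.Ord

/-!
# [H53 SU] The average of `1 + ∑_{p ∣ 2 d} p ^ (-3/4)` over the differences `d` of the numbers `2 ^ k - k`
-/

set_option autoImplicit false

namespace Pool.Agent.H53.SU

open Finset

/-- `2 ^ k - k` -/
def hh (k : ℕ) : ℕ := 2 ^ k - k

theorem hh_add (k : ℕ) : hh k + k = 2 ^ k := by
  unfold hh
  have := Nat.lt_two_pow_self (n := k)
  omega

theorem hh_lt {k l : ℕ} (hk : 1 ≤ k) (h : k < l) : hh k < hh l := by
  have h1 := hh_add k
  have h2 := hh_add l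
  obtain ⟨m, rfl⟩ : ∃ m, l = k + (m + 1) := ⟨l - k - 1, by omega⟩
  have h3 : 2 ^ (k + (m + 1)) = 2 ^ k * 2 ^ (m + 1) := pow_add _ _ _
  have h4 : m + 1 + 1 ≤ 2 ^ (m + 1) := Nat.lt_two_pow_self
  have h5 : 2 ≤ 2 ^ k := by
    calc 2 = 2 ^ 1 := (pow_one 2).symm
      _ ≤ 2 ^ k := Nat.pow_le_pow_right (by norm_num) hk
  have h6 : 2 ^ k * (m + 1 + 1) ≤ 2 ^ k * 2 ^ (m + 1) := Nat.mul_le_mul_left _ h4
  nlinarith

theorem hh_lt_pow (k : ℕ) (hk : 1 ≤ k) : hh k < 2 ^ k := by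
  have := hh_add k
  omega

/-- the pairs `1 ≤ k < l ≤ K` -/
def DD (K : ℕ) : Finset (ℕ × ℕ) := (Icc 1 K ×ˢ Icc 1 K).filter (fun q => q.1 < q.2)

theorem card_DD_le (K : ℕ) : ((DD K).card : ℝ) ≤ (K : ℝ) ^ 2 := by
  have h : (DD K).card ≤ K ^ 2 := by
    refine (card_filter_le _ _).trans ?_
    rw [card_product, Nat.card_Icc]
    simp [pow_two]
  exact_mod_cast h

theorem pow_cancel {p : ℕ} (hp : p.Prime) (h2 : p ≠ 2) {k k' : ℕ} (h : k ≤ k')
    (he : (2 : ZMod p) ^ k = 2 ^ k') : orderOf (2 : ZMod p) ∣ k' - k := by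
  have := Fact.mk hp
  apply orderOf_dvd_of_pow_eq_one
  have h1 : (2 : ZMod p) ^ k' = 2 ^ k * 2 ^ (k' - k) := by rw [← pow_add]; congr 1; omega
  have h3 : (2 : ZMod p) ^ k ≠ 0 := pow_ne_zero _ (two_ne hp h2)
  have h4 : (2 : ZMod p) ^ k * 2 ^ (k' - k) = 2 ^ k * 1 := by rw [← h1, he, mul_one]
  exact mul_left_cancel₀ h3 h4

theorem card_pow_eq {p : ℕ} (hp : p.Prime) (h2 : p ≠ 2) (K : ℕ) (c : ZMod p) :
    ((Icc 1 K).filter (fun k => (2 : ZMod p) ^ k = c)).card ≤ K / orderOf (2 : ZMod p) + 1 := by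
  have ht := ord_pos hp h2
  have h1 : ((Icc 1 K).filter (fun k => (2 : ZMod p) ^ k = c)).card ≤
      (range (K / orderOf (2 : ZMod p) + 1)).card := by
    apply card_le_card_of_injOn (fun k => k / orderOf (2 : ZMod p))
    · intro k hk
      have hk' := mem_filter.1 (mem_coe.1 hk)
      have h3 := (mem_Icc.1 hk'.1).2
      refine mem_coe.2 (mem_range.2 ?_)
      exact Nat.lt_succ_of_le (Nat.div_le_div_right h3)
    · intro k hk k' hk' he
      have a := (mem_filter.1 (mem_coe.1 hk)).2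
      have b := (mem_filter.1 (mem_coe.1 hk')).2
      have key : ∀ k k' : ℕ, (2 : ZMod p) ^ k = c → (2 : ZMod p) ^ k' = c → k ≤ k' →
          k / orderOf (2 : ZMod p) = k' / orderOf (2 : ZMod p) → k = k' := by
        intro k k' a b h he
        have h4 := pow_cancel hp h2 h (a.trans b.symm)
        have h5 : k ≡ k' [MOD orderOf (2 : ZMod p)] := (Nat.modEq_iff_dvd' h).2 h4
        have h6 := Nat.div_add_mod k (orderOf (2 : ZMod p))
        have h7 := Nat.div_add_mod k' (orderOf (2 : ZMod p))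
        unfold Nat.ModEq at h5
        rw [he, h5] at h6
        omega
      simp only at he
      rcases le_total k k' with h | h
      · exact key k k' a b h he
      · exact (key k' k b a h he.symm).symm
  rwa [card_range] at h1

theorem card_mult (t K : ℕ) : ((Icc 1 K).filter (fun m => t ∣ m)).card = K / t := by
  have := Nat.Ioc_filter_dvd_card_eq_div K t
  rw [← this]
  congr 1

theorem dvd_iff {p k l : ℕ} (hk : 1 ≤ k) (h : k < l) (hd : p ∣ hh l - hh k) :
    (2 : ZMod p) ^ k * (2 ^ (l - k) - 1) = ((l - k : ℕ) : ZMod p) := by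
  rw [← ZMod.natCast_eq_zero_iff, Nat.cast_sub (hh_lt hk h).le] at hd
  have h1 : ((hh l : ℕ) : ZMod p) + l = 2 ^ l := by
    have := congrArg (fun x : ℕ => (x : ZMod p)) (hh_add l)
    simpa using this
  have h2 : ((hh k : ℕ) : ZMod p) + k = 2 ^ k := by
    have := congrArg (fun x : ℕ => (x : ZMod p)) (hh_add k)
    simpa using this
  have h3 : (2 : ZMod p) ^ l = 2 ^ k * 2 ^ (l - k) := by rw [← pow_add]; congr 1; omega
  rw [Nat.cast_sub h.le, mul_sub, ← h3, ← h1, ← h2]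
  linear_combination hd

theorem cnt {p : ℕ} (hp : p.Prime) (h2 : p ≠ 2) (K : ℕ) :
    (((DD K).filter (fun q => p ∣ hh q.2 - hh q.1)).card : ℝ) ≤
      2 * (K : ℝ) ^ 2 / (orderOf (2 : ZMod p) : ℝ) + K := by
  have := Fact.mk hp
  have ht := ord_pos hp h2
  set t := orderOf (2 : ZMod p) with htdef
  have htR : (0 : ℝ) < t := by exact_mod_cast ht
  -- the pairs with difference m
  set A : ℕ → Finset ℕ := fun m => (Icc 1 K).filter
    (fun k => (2 : ZMod p) ^ k * (2 ^ m - 1) = ((m : ℕ) : ZMod p)) with hA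
  have h1 : ((DD K).filter (fun q => p ∣ hh q.2 - hh q.1)).card ≤ ((Icc 1 K).sigma A).card := by
    apply card_le_card_of_injOn (fun q => (⟨q.2 - q.1, q.1⟩ : (_ : ℕ) × ℕ))
    · rintro ⟨k, l⟩ hq
      have hq' := mem_filter.1 (mem_coe.1 hq)
      have hq1 := mem_filter.1 hq'.1
      have hq2 := mem_product.1 hq1.1
      have hk := mem_Icc.1 hq2.1
      have hl := mem_Icc.1 hq2.2
      simp only at hk hl
      have hlt : k < l := hq1.2
      refine mem_coe.2 (mem_sigma.2 ⟨mem_Icc.2 ⟨?_, ?_⟩, mem_filter.2 ⟨hq2.1, ?_⟩⟩)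
      · show 1 ≤ l - k
        omega
      · show l - k ≤ K
        omega
      · exact dvd_iff hk.1 hlt hq'.2
    · rintro ⟨k, l⟩ hq ⟨k', l'⟩ hq' he
      have hq1 : k < l := (mem_filter.1 (mem_filter.1 (mem_coe.1 hq)).1).2
      have hq1' : k' < l' := (mem_filter.1 (mem_filter.1 (mem_coe.1 hq')).1).2
      simp only [Sigma.mk.injEq, heq_eq_eq] at he
      ext
      · exact he.2
      · show l = l'
        omega
  rw [card_sigma] at h1
  have h3 : ∀ m ∈ Icc 1 K, (A m).card ≤ (K / t + 1) + (if t ∣ m then K else 0) := by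
    intro m hm
    by_cases hm1 : (2 : ZMod p) ^ m = 1
    · have h4 : t ∣ m := orderOf_dvd_of_pow_eq_one hm1
      rw [if_pos h4]
      have h5 := card_filter_le (Icc 1 K) (fun k => (2 : ZMod p) ^ k * (2 ^ m - 1) = ((m : ℕ) : ZMod p))
      rw [Nat.card_Icc] at h5
      have h6 : (A m).card ≤ K + 1 - 1 := h5
      rw [Nat.add_sub_cancel] at h6
      exact h6.trans (Nat.le_add_left _ _)
    · have hne : (2 : ZMod p) ^ m - 1 ≠ 0 := sub_ne_zero.2 hm1
      have h4 := card_pow_eq hp h2 K (((m : ℕ) : ZMod p) / (2 ^ m - 1))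
      have h5 : A m ⊆ (Icc 1 K).filter (fun k => (2 : ZMod p) ^ k = ((m : ℕ) : ZMod p) / (2 ^ m - 1)) := by
        intro k hk
        have hk' := mem_filter.1 hk
        exact mem_filter.2 ⟨hk'.1, (eq_div_iff hne).2 hk'.2⟩
      have h6 := (card_le_card h5).trans h4
      exact h6.trans (Nat.le_add_right _ _)
  have h4 := h1.trans (sum_le_sum h3)
  rw [sum_add_distrib, sum_const, smul_eq_mul, Nat.card_Icc, Nat.add_sub_cancel, ← sum_filter, sum_const,
    card_mult t K, smul_eq_mul] at h4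
  have h5 : (((DD K).filter (fun q => p ∣ hh q.2 - hh q.1)).card : ℝ) ≤
      (K : ℝ) * (((K / t : ℕ) : ℝ) + 1) + ((K / t : ℕ) : ℝ) * K := by exact_mod_cast h4
  have h6 : ((K / t : ℕ) : ℝ) ≤ (K : ℝ) / t := Nat.cast_div_le
  have hK0 : (0 : ℝ) ≤ K := Nat.cast_nonneg K
  have h7 : (K : ℝ) * (((K / t : ℕ) : ℝ) + 1) + ((K / t : ℕ) : ℝ) * K ≤
      (K : ℝ) * ((K : ℝ) / t + 1) + (K : ℝ) / t * K := by gcongr
  have h8 : (K : ℝ) * ((K : ℝ) / t + 1) + (K : ℝ) / t * K = 2 * (K : ℝ) ^ 2 / t + K := by ring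
  linarith

theorem big_primes (K d : ℕ) (hK : 1 ≤ K) (hd : 1 ≤ d) (hdK : d < 2 ^ K) :
    ∑ p ∈ d.primeFactors.filter (fun p => ¬ p < K ^ 2), wt p ≤ 1 := by
  have hK0 : (0 : ℝ) < K := by exact_mod_cast hK
  have hsK : 1 ≤ Real.sqrt K := by rw [Real.one_le_sqrt]; exact_mod_cast hK
  have h1 : ∀ p ∈ d.primeFactors.filter (fun p => ¬ p < K ^ 2), wt p ≤ 1 / Real.sqrt K ^ 3 := by
    intro p hp
    rw [mem_filter, not_lt] at hp
    refine (wt_anti (p := K ^ 2) (q := p) (Nat.one_le_pow _ _ hK) hp.2).trans (le_of_eq ?_)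
    unfold wt fr
    push_cast
    rw [Real.sqrt_sq hK0.le]
  have h2 := sum_le_card_nsmul _ _ _ h1
  rw [nsmul_eq_mul] at h2
  have h3 : (d.primeFactors.filter (fun p => ¬ p < K ^ 2)).card ≤ K := by
    refine (card_filter_le _ _).trans ?_
    have h4 : 2 ^ d.primeFactors.card ≤ ∏ p ∈ d.primeFactors, p :=
      Finset.pow_card_le_prod _ _ _ fun p hp => (Nat.prime_of_mem_primeFactors hp).two_le
    have h5 := Nat.le_of_dvd hd (Nat.prod_primeFactors_dvd d)
    have h6 : 2 ^ d.primeFactors.card < 2 ^ K := by omega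
    exact ((Nat.pow_lt_pow_iff_right (by norm_num)).1 h6).le
  have h4 : ((d.primeFactors.filter (fun p => ¬ p < K ^ 2)).card : ℝ) ≤ Real.sqrt K ^ 2 := by
    rw [Real.sq_sqrt hK0.le]
    exact_mod_cast h3
  have h5 : ((d.primeFactors.filter (fun p => ¬ p < K ^ 2)).card : ℝ) * (1 / Real.sqrt K ^ 3) ≤
      Real.sqrt K ^ 2 * (1 / Real.sqrt K ^ 3) := mul_le_mul_of_nonneg_right h4 (by positivity)
  have h6 : Real.sqrt K ^ 2 * (1 / Real.sqrt K ^ 3) = 1 / Real.sqrt K := by field_simp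
  have h7 : 1 / Real.sqrt K ≤ 1 := by rw [div_le_one (by linarith)]; exact hsK
  linarith

theorem avg (K : ℕ) (hK : 1 ≤ K) :
    ∑ q ∈ DD K, (1 + ∑ p ∈ (2 * (hh q.2 - hh q.1)).primeFactors, wt p) ≤ 50 * (K : ℝ) ^ 2 := by
  have hK0 : (0 : ℝ) < K := by exact_mod_cast hK
  have hK1 : (1 : ℝ) ≤ K := by exact_mod_cast hK
  set P : Finset ℕ := (range (K ^ 2)).filter (fun p => p.Prime ∧ p ≠ 2) with hP
  have h1 : ∀ q ∈ DD K, (1 + ∑ p ∈ (2 * (hh q.2 - hh q.1)).primeFactors, wt p) ≤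
      3 + ∑ p ∈ P, if p ∣ hh q.2 - hh q.1 then wt p else 0 := by
    rintro ⟨k, l⟩ hq
    have hq1 := mem_filter.1 hq
    have hq2 := mem_product.1 hq1.1
    have hk := mem_Icc.1 hq2.1
    have hl := mem_Icc.1 hq2.2
    have hlt : k < l := hq1.2
    simp only at hk hl ⊢
    have hd : 1 ≤ hh l - hh k := by have := hh_lt hk.1 hlt; omega
    have hdK : hh l - hh k < 2 ^ K := by
      have h3 := hh_lt_pow l hl.1
      have h4 : 2 ^ l ≤ 2 ^ K := Nat.pow_le_pow_right (by norm_num) hl.2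
      omega
    set d := hh l - hh k with hddef
    have h3 : (2 * d).primeFactors = {2} ∪ d.primeFactors := by
      rw [Nat.primeFactors_mul (by norm_num) (by omega), Nat.prime_two.primeFactors]
    have h4 : ∑ p ∈ (2 * d).primeFactors, wt p ≤ wt 2 + ∑ p ∈ d.primeFactors.filter (fun p => p ≠ 2), wt p := by
      rw [h3]
      have h5 : {2} ∪ d.primeFactors ⊆ insert 2 (d.primeFactors.filter (fun p => p ≠ 2)) := by
        intro p hp
        rw [mem_union, mem_singleton] at hp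
        rw [mem_insert, mem_filter]
        by_cases h : p = 2
        · exact Or.inl h
        · exact Or.inr ⟨hp.resolve_left h, h⟩
      refine (sum_le_sum_of_subset_of_nonneg h5 fun p _ _ => wt_nonneg p).trans ?_
      rw [sum_insert (by simp)]
    have h5 : ∑ p ∈ d.primeFactors.filter (fun p => p ≠ 2), wt p ≤
        ∑ p ∈ d.primeFactors.filter (fun p => ¬ p < K ^ 2), wt p +
        ∑ p ∈ P, if p ∣ d then wt p else 0 := by
      rw [← sum_filter]
      rw [← sum_filter_add_sum_filter_not (d.primeFactors.filter (fun p => p ≠ 2)) (fun p => ¬ p < K ^ 2)]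
      apply add_le_add
      · apply sum_le_sum_of_subset_of_nonneg _ fun p _ _ => wt_nonneg p
        intro p hp
        rw [mem_filter, mem_filter] at hp
        exact mem_filter.2 ⟨hp.1.1, hp.2⟩
      · apply sum_le_sum_of_subset_of_nonneg _ fun p _ _ => wt_nonneg p
        intro p hp
        rw [mem_filter, mem_filter, not_not] at hp
        have h6 := Nat.prime_of_mem_primeFactors hp.1.1
        exact mem_filter.2 ⟨mem_filter.2 ⟨mem_range.2 hp.2, h6, hp.1.2⟩, Nat.dvd_of_mem_primeFactors hp.1.1⟩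
    have h6 := big_primes K d hK hd hdK
    have h7 := wt_le_one (p := 2) (by norm_num)
    linarith
  refine (sum_le_sum h1).trans ?_
  rw [sum_add_distrib, sum_const, nsmul_eq_mul, sum_comm]
  have h2 : ∀ p ∈ P, (∑ q ∈ DD K, if p ∣ hh q.2 - hh q.1 then wt p else 0) ≤
      2 * (K : ℝ) ^ 2 * (wt p / (orderOf (2 : ZMod p) : ℝ)) + K * wt p := by
    intro p hp
    rw [hP, mem_filter] at hp
    rw [← sum_filter, sum_const, nsmul_eq_mul]
    have h3 := mul_le_mul_of_nonneg_right (cnt hp.2.1 hp.2.2 K) (wt_nonneg p)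
    refine h3.trans (le_of_eq ?_)
    ring
  have h3 := sum_le_sum h2
  rw [sum_add_distrib, ← mul_sum, ← mul_sum] at h3
  have h4 := sum_ord (K ^ 2)
  have h5 : ∑ p ∈ P, wt p ≤ 4 * K := by
    have h6 : ∑ p ∈ P, wt p ≤ ∑ p ∈ Icc 1 (K ^ 2), wt p := by
      apply sum_le_sum_of_subset_of_nonneg _ fun p _ _ => wt_nonneg p
      intro p hp
      rw [hP, mem_filter, mem_range] at hp
      exact mem_Icc.2 ⟨hp.2.1.one_lt.le, hp.1.le⟩
    have h7 := sum_wt_le (K ^ 2)
    have h8 : fr ((K ^ 2 : ℕ) : ℝ) ≤ K := by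
      unfold fr
      push_cast
      rw [Real.sqrt_sq hK0.le]
      rw [Real.sqrt_le_left hK0.le]
      nlinarith
    linarith
  have h6 := card_DD_le K
  have h7 : 2 * (K : ℝ) ^ 2 * ∑ p ∈ P, wt p / (orderOf (2 : ZMod p) : ℝ) ≤ 2 * (K : ℝ) ^ 2 * 20 :=
    mul_le_mul_of_nonneg_left h4 (by positivity)
  have h8 : (K : ℝ) * ∑ p ∈ P, wt p ≤ K * (4 * K) := mul_le_mul_of_nonneg_left h5 hK0.le
  nlinarith

end Pool.Agent.H53.SU
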