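import Mathlib

/-!
# [H53 SU] The exact density of the `k` with `2 ^ k + n - k` without prime factor up to `y`
-/

set_option autoImplicit false

namespace Pool.Agent.H53.SU

open Finset

/-- the period: the product of `p (p - 1)` over the primes `p ≤ y` -/
def PP (y : ℕ) : ℕ := ∏ p ∈ (Icc 1 y).filter Nat.Prime, p * (p - 1)

/-- the product of `(p - 1) ^ 2` over the primes `p ≤ y` -/
def AA (y : ℕ) : ℕ := ∏ p ∈ (Icc 1 y).filter Nat.Prime, (p - 1) ^ 2

/-- `2 ^ k + n - k` has no prime factor up to `y` -/
def Ok (n : ℤ) (y k : ℕ) : Prop := ∀ p : ℕ, p.Prime → p ≤ y → ¬ ((p : ℤ) ∣ 2 ^ k + n - k)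

theorem PP_pos (y : ℕ) : 0 < PP y := by
  unfold PP
  apply Finset.prod_pos
  intro p hp
  have := (mem_filter.1 hp).2.two_le
  exact Nat.mul_pos (by omega) (by omega)

theorem AA_pos (y : ℕ) : 0 < AA y := by
  unfold AA
  apply Finset.prod_pos
  intro p hp
  have := (mem_filter.1 hp).2.two_le
  exact Nat.pow_pos (by omega)

theorem dvd_PP {y p : ℕ} (hp : p.Prime) (h : p ≤ y) : p * (p - 1) ∣ PP y :=
  Finset.dvd_prod_of_mem (fun p => p * (p - 1)) (mem_filter.2 ⟨mem_Icc.2 ⟨hp.one_lt.le, h⟩, hp⟩)

theorem period {p : ℕ} (hp : p.Prime) {R : ℕ} (hR : p * (p - 1) ∣ R) {k : ℕ} (hk : 1 ≤ k) (n : ℤ) :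
    ((p : ℤ) ∣ 2 ^ (k + R) + n - ((k + R : ℕ) : ℤ)) ↔ ((p : ℤ) ∣ 2 ^ k + n - k) := by
  have h1 : (p : ℤ) ∣ (2 : ℤ) ^ (k + R) - 2 ^ k := by
    rcases eq_or_ne p 2 with rfl | h2
    · apply dvd_sub
      · exact dvd_pow_self _ (by omega)
      · exact dvd_pow_self _ (by omega)
    · have := Fact.mk hp
      have hne : (2 : ZMod p) ≠ 0 := by
        intro h
        have h1 : p ∣ 2 := (ZMod.natCast_eq_zero_iff 2 p).1 (by exact_mod_cast h)
        exact h2 ((Nat.prime_dvd_prime_iff_eq hp Nat.prime_two).1 h1)
      rw [← ZMod.intCast_zmod_eq_zero_iff_dvd]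
      push_cast
      obtain ⟨c, hc⟩ := hR
      rw [pow_add, hc, show p * (p - 1) * c = (p - 1) * (p * c) by ring, pow_mul (2 : ZMod p) (p - 1),
        ZMod.pow_card_sub_one_eq_one hne, one_pow, mul_one, sub_self]
  have h2 : (p : ℤ) ∣ (R : ℤ) := by
    have : p ∣ R := (Dvd.intro _ rfl).trans hR
    exact_mod_cast this
  have h3 : (2 : ℤ) ^ (k + R) + n - ((k + R : ℕ) : ℤ) =
      (2 ^ k + n - k) + (((2 : ℤ) ^ (k + R) - 2 ^ k) - R) := by push_cast; ring
  rw [h3]
  exact dvd_add_left (dvd_sub h1 h2)

theorem period' {p : ℕ} (hp : p.Prime) {R : ℕ} (hR : (p - 1) ∣ R) {k : ℕ} (hk : 1 ≤ k) (n : ℤ) :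
    ((p : ℤ) ∣ 2 ^ (k + R) + n - ((k + R : ℕ) : ℤ)) ↔ ((p : ℤ) ∣ (2 ^ k + n - k) - R) := by
  have h1 : (p : ℤ) ∣ (2 : ℤ) ^ (k + R) - 2 ^ k := by
    rcases eq_or_ne p 2 with rfl | h2
    · apply dvd_sub
      · exact dvd_pow_self _ (by omega)
      · exact dvd_pow_self _ (by omega)
    · have := Fact.mk hp
      have hne : (2 : ZMod p) ≠ 0 := by
        intro h
        have h1 : p ∣ 2 := (ZMod.natCast_eq_zero_iff 2 p).1 (by exact_mod_cast h)
        exact h2 ((Nat.prime_dvd_prime_iff_eq hp Nat.prime_two).1 h1)
      rw [← ZMod.intCast_zmod_eq_zero_iff_dvd]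
      push_cast
      obtain ⟨c, hc⟩ := hR
      rw [pow_add, hc, pow_mul (2 : ZMod p) (p - 1),
        ZMod.pow_card_sub_one_eq_one hne, one_pow, mul_one, sub_self]
  have h3 : (2 : ℤ) ^ (k + R) + n - ((k + R : ℕ) : ℤ) =
      ((2 ^ k + n - k) - R) + ((2 : ℤ) ^ (k + R) - 2 ^ k) := by push_cast; ring
  rw [h3]
  exact dvd_add_left h1

open Classical in
theorem blocks (S : ℕ → Prop) (P A : ℕ) (h : ∀ K : ℕ, ((Ioc K (K + P)).filter S).card = A) (m : ℕ) :
    ∀ K : ℕ, ((Ioc K (K + m * P)).filter S).card = m * A := by
  induction m with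
  | zero => intro K; simp
  | succ m ih =>
    intro K
    have h1 : Ioc K (K + (m + 1) * P) = Ioc K (K + m * P) ∪ Ioc (K + m * P) (K + m * P + P) := by
      rw [Finset.Ioc_union_Ioc_eq_Ioc (by omega) (by omega)]
      congr 1
      ring
    rw [h1, filter_union, card_union_of_disjoint, ih, h]
    · ring
    · apply disjoint_filter_filter
      rw [Finset.disjoint_left]
      intro x hx hx'
      rw [mem_Ioc] at hx hx'
      omega

open Classical in
theorem blocks2 (S : ℕ → Prop) (R m K : ℕ) :
    ((Ioc K (K + m * R)).filter S).card =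
      ∑ i ∈ range m, ((Ioc K (K + R)).filter (fun j => S (j + R * i))).card := by
  induction m with
  | zero => simp
  | succ m ih =>
    have h1 : Ioc K (K + (m + 1) * R) = Ioc K (K + m * R) ∪ Ioc (K + m * R) (K + m * R + R) := by
      rw [Finset.Ioc_union_Ioc_eq_Ioc (by omega) (by omega)]
      congr 1
      ring
    rw [h1, filter_union, card_union_of_disjoint, ih, sum_range_succ]
    · congr 1
      symm
      apply card_bij (fun j _ => j + R * m)
      · intro j hj
        rw [mem_filter, mem_Ioc] at hj ⊢
        refine ⟨⟨?_, ?_⟩, hj.2⟩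
        · rw [mul_comm m R]; omega
        · rw [mul_comm m R]; omega
      · intro a _ b _ h
        omega
      · intro b hb
        rw [mem_filter, mem_Ioc, mul_comm m R] at hb
        refine ⟨b - R * m, ?_, by omega⟩
        rw [mem_filter, mem_Ioc]
        refine ⟨⟨by omega, by omega⟩, ?_⟩
        rw [show b - R * m + R * m = b by omega]
        exact hb.2
    · apply disjoint_filter_filter
      rw [Finset.disjoint_left]
      intro x hx hx'
      rw [mem_Ioc] at hx hx'
      omega

open Classical in
theorem count_res {p : ℕ} (hp : p.Prime) (c : ℤ) (R : ℕ) (hR : ¬ p ∣ R) :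
    ((range p).filter (fun i => ¬ ((p : ℤ) ∣ c - ((R * i : ℕ) : ℤ)))).card = p - 1 := by
  have := Fact.mk hp
  have hR0 : (R : ZMod p) ≠ 0 := by
    rw [Ne, ZMod.natCast_eq_zero_iff]; exact hR
  set i0 : ℕ := ((c : ZMod p) / (R : ZMod p)).val with hi0
  have hi0lt : i0 < p := ZMod.val_lt _
  have h1 : (range p).filter (fun i => ¬ ((p : ℤ) ∣ c - ((R * i : ℕ) : ℤ))) = (range p).erase i0 := by
    ext i
    rw [mem_filter, mem_erase, mem_range]
    have h2 : ((p : ℤ) ∣ c - ((R * i : ℕ) : ℤ)) ↔ (i : ZMod p) = (c : ZMod p) / (R : ZMod p) := by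
      rw [← ZMod.intCast_zmod_eq_zero_iff_dvd]
      push_cast
      rw [sub_eq_zero, eq_div_iff hR0]
      constructor
      · intro h; rw [h]; ring
      · intro h; rw [← h]; ring
    constructor
    · rintro ⟨hi, hn⟩
      refine ⟨?_, hi⟩
      rintro rfl
      apply hn
      rw [h2, hi0, ZMod.natCast_zmod_val]
    · rintro ⟨hne, hi⟩
      refine ⟨hi, ?_⟩
      rw [h2]
      intro h
      apply hne
      rw [hi0, ← h, ZMod.val_natCast_of_lt hi]
  rw [h1, card_erase_of_mem (mem_range.2 hi0lt), card_range]

open Classical in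
/-- For every integer `n` and every `y`, among any `PP y` consecutive positive `k` exactly `AA y` have the
property that `2 ^ k + n - k` has no prime factor up to `y`. -/
theorem dens (n : ℤ) (y : ℕ) : ∀ K : ℕ, ((Ioc K (K + PP y)).filter (Ok n y)).card = AA y := by
  induction y with
  | zero =>
    intro K
    have h1 : PP 0 = 1 := by simp [PP]
    have h2 : AA 0 = 1 := by simp [AA]
    rw [h1, h2]
    have h3 : (Ioc K (K + 1)).filter (Ok n 0) = Ioc K (K + 1) := by
      apply filter_true_of_mem
      intro k _ p hp hp0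
      have := hp.one_lt
      omega
    rw [h3, Nat.card_Ioc]
    omega
  | succ y ih =>
    by_cases hp : (y + 1).Prime
    · intro K
      set p := y + 1 with hpdef
      have hIcc : (Icc 1 (y + 1)).filter Nat.Prime = insert (y + 1) ((Icc 1 y).filter Nat.Prime) := by
        ext q
        rw [mem_filter, mem_insert, mem_filter, mem_Icc, mem_Icc]
        constructor
        · rintro ⟨⟨h1, h2⟩, h3⟩
          by_cases h : q = y + 1
          · exact Or.inl h
          · exact Or.inr ⟨⟨h1, by omega⟩, h3⟩
        · rintro (rfl | ⟨⟨h1, h2⟩, h3⟩)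
          · exact ⟨⟨by omega, le_refl _⟩, hp⟩
          · exact ⟨⟨h1, by omega⟩, h3⟩
      have hnot : y + 1 ∉ (Icc 1 y).filter Nat.Prime := by
        rw [mem_filter, mem_Icc]
        omega
      have hPP : PP (y + 1) = p * ((p - 1) * PP y) := by
        unfold PP
        rw [hIcc, prod_insert hnot, ← hpdef]
        ring
      have hAA : AA (y + 1) = (p - 1) * ((p - 1) * AA y) := by
        unfold AA
        rw [hIcc, prod_insert hnot, ← hpdef]
        ring
      set R := (p - 1) * PP y with hRdef
      have hpR : ¬ p ∣ R := by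
        intro h
        rw [hRdef, hp.dvd_mul] at h
        rcases h with h | h
        · have := Nat.le_of_dvd (by have := hp.two_le; omega) h
          have := hp.two_le
          omega
        · unfold PP at h
          rw [Prime.dvd_finsetProd_iff hp.prime] at h
          obtain ⟨q, hq, h⟩ := h
          rw [mem_filter, mem_Icc] at hq
          rw [hp.dvd_mul] at h
          rcases h with h | h
          · have := Nat.le_of_dvd (by omega) h
            omega
          · have := Nat.le_of_dvd (by have := hq.2.two_le; omega) h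
            omega
      have hPP' : PP p = p * R := hPP
      have hAA' : AA p = (p - 1) * ((p - 1) * AA y) := hAA
      rw [hPP', hAA', blocks2]
      have h1 : ∀ i ∈ range p, ((Ioc K (K + R)).filter (fun j => Ok n p (j + R * i))).card =
          ∑ j ∈ Ioc K (K + R), if Ok n p (j + R * i) then 1 else 0 := by
        intro i _
        rw [card_filter]
      rw [sum_congr rfl h1, sum_comm]
      have h2 : ∀ j ∈ Ioc K (K + R), (∑ i ∈ range p, if Ok n p (j + R * i) then 1 else 0) =
          if Ok n y j then (p - 1) else 0 := by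
        intro j hj
        have hj1 : 1 ≤ j := by rw [mem_Ioc] at hj; omega
        rw [← card_filter]
        have h3 : ∀ i, Ok n p (j + R * i) ↔
            (Ok n y j ∧ ¬ ((p : ℤ) ∣ (2 ^ j + n - j) - ((R * i : ℕ) : ℤ))) := by
          intro i
          constructor
          · intro h
            constructor
            · intro q hq hqy hd
              apply h q hq (by omega)
              rw [period hq _ hj1]
              · exact hd
              · exact ((dvd_PP hq hqy).trans (Dvd.intro_left _ rfl)).trans (Dvd.intro _ rfl)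
            · have := h p hp (le_refl _)
              rwa [period' hp _ hj1] at this
              exact (Dvd.intro _ rfl : (p - 1) ∣ R).trans (Dvd.intro _ rfl)
          · rintro ⟨h, h'⟩ q hq hqp hd
            rcases Nat.lt_or_ge q p with hlt | hge
            · apply h q hq (by omega)
              rw [period hq _ hj1] at hd
              · exact hd
              · exact ((dvd_PP hq (by omega)).trans (Dvd.intro_left _ rfl)).trans (Dvd.intro _ rfl)
            · have hqe : q = p := le_antisymm hqp hge
              rw [hqe, period' hp _ hj1] at hd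
              · exact h' hd
              · exact (Dvd.intro _ rfl : (p - 1) ∣ R).trans (Dvd.intro _ rfl)
        by_cases hok : Ok n y j
        · rw [if_pos hok]
          rw [← count_res hp (2 ^ j + n - j) R hpR]
          congr 1
          apply filter_congr
          intro i _
          rw [h3 i]
          exact ⟨fun h => h.2, fun h => ⟨hok, h⟩⟩
        · rw [if_neg hok, card_eq_zero]
          apply filter_false_of_mem
          intro i _ h
          exact hok ((h3 i).1 h).1
      rw [sum_congr rfl h2, ← sum_filter, sum_const, smul_eq_mul]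
      have h4 := blocks (Ok n y) (PP y) (AA y) ih (p - 1) K
      rw [h4]
      ring
    · intro K
      have hIcc : (Icc 1 (y + 1)).filter Nat.Prime = (Icc 1 y).filter Nat.Prime := by
        ext q
        rw [mem_filter, mem_filter, mem_Icc, mem_Icc]
        constructor
        · rintro ⟨⟨h1, h2⟩, h3⟩
          by_cases h : q = y + 1
          · rw [h] at h3; exact absurd h3 hp
          · exact ⟨⟨h1, by omega⟩, h3⟩
        · rintro ⟨⟨h1, h2⟩, h3⟩
          exact ⟨⟨h1, by omega⟩, h3⟩
      have hPP : PP (y + 1) = PP y := by unfold PP; rw [hIcc]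
      have hAA : AA (y + 1) = AA y := by unfold AA; rw [hIcc]
      rw [hPP, hAA, ← ih K]
      congr 1
      apply filter_congr
      intro k _
      constructor
      · intro h q hq hqy
        exact h q hq (by omega)
      · intro h q hq hqy
        by_cases he : q = y + 1
        · rw [he] at hq; exact absurd hq hp
        · exact h q hq (by omega)

end Pool.Agent.H53.SU
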