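import Pool.Agent.H53.SU.Mom

/-!
# [H53 SU] A positive proportion of every residue class is good
-/

set_option autoImplicit false

namespace Pool.Agent.H53.SU

open Finset Filter Topology

theorem pow_floor_le (δ : ℝ) (hδ : 0 < δ) (hδ2 : δ ≤ 1 / 2) (N : ℕ) (hN : 2 ≤ N) :
    (2 : ℝ) ^ ⌊δ * Real.log N⌋₊ ≤ Real.sqrt N := by
  have hN0 : (0 : ℝ) < N := by positivity
  have hl : 0 < Real.log N := Real.log_pos (by exact_mod_cast hN)
  have h1 : (⌊δ * Real.log N⌋₊ : ℝ) ≤ δ * Real.log N := Nat.floor_le (by positivity)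
  have h2 : (2 : ℝ) ^ ⌊δ * Real.log N⌋₊ = Real.exp (⌊δ * Real.log N⌋₊ * Real.log 2) := by
    rw [Real.exp_nat_mul, Real.exp_log (by norm_num)]
  have h3 : Real.sqrt N = Real.exp (Real.log N / 2) := by
    rw [Real.exp_half, Real.exp_log hN0]
  rw [h2, h3]
  apply Real.exp_le_exp.2
  have h4 : Real.log 2 ≤ 1 := by
    have := Real.log_two_lt_d9
    linarith
  have h5 : 0 < Real.log 2 := Real.log_pos (by norm_num)
  calc (⌊δ * Real.log N⌋₊ : ℝ) * Real.log 2 ≤ (δ * Real.log N) * 1 := by gcongr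
    _ ≤ (1 / 2 * Real.log N) * 1 := by gcongr
    _ = Real.log N / 2 := by ring

theorem cast_hh (a k : ℕ) : ((a + hh k : ℕ) : ℤ) = 2 ^ k + a - k := by
  have h := hh_add k
  have h1 : ((hh k : ℕ) : ℤ) + k = 2 ^ k := by exact_mod_cast h
  push_cast
  linarith

theorem unit_of_ok (q a k : ℕ) (hq : 1 ≤ q) (h : Ok (a : ℤ) q k) :
    IsUnit (((a + hh k : ℕ)) : ZMod q) := by
  rw [ZMod.isUnit_iff_coprime]
  by_contra hcon
  rw [Nat.Prime.not_coprime_iff_dvd] at hcon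
  obtain ⟨p, hp, h1, h2⟩ := hcon
  apply h p hp (Nat.le_of_dvd hq h2)
  rw [← cast_hh]
  exact_mod_cast h1

open Classical in
theorem card_G (q a K : ℕ) :
    (K : ℝ) / PP q - 1 ≤ (((Icc 1 K).filter (fun k => Ok (a : ℤ) q k)).card : ℝ) := by
  have hP := PP_pos q
  have hPR : (0 : ℝ) < PP q := by exact_mod_cast hP
  have h1 := blocks (Ok (a : ℤ) q) (PP q) (AA q) (dens (a : ℤ) q) (K / PP q) 0
  have h2 : (Ioc 0 (0 + K / PP q * PP q)).filter (Ok (a : ℤ) q) ⊆ (Icc 1 K).filter (fun k => Ok (a : ℤ) q k) := by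
    intro k hk
    rw [mem_filter, mem_Ioc] at hk
    have := Nat.div_mul_le_self K (PP q)
    exact mem_filter.2 ⟨mem_Icc.2 ⟨by omega, by omega⟩, hk.2⟩
  have h3 := card_le_card h2
  rw [h1] at h3
  have h4 : K / PP q ≤ K / PP q * AA q := Nat.le_mul_of_pos_right _ (AA_pos q)
  have h5 : ((K / PP q : ℕ) : ℝ) ≤ (((Icc 1 K).filter (fun k => Ok (a : ℤ) q k)).card : ℝ) := by
    exact_mod_cast h4.trans h3
  have h6 : (K : ℝ) / PP q ≤ ((K / PP q : ℕ) : ℝ) + 1 := by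
    rw [div_le_iff₀ hPR]
    have h7 : K ≤ (K / PP q + 1) * PP q := by
      have h8 := Nat.div_add_mod K (PP q)
      have h9 := Nat.mod_lt K hP
      nlinarith
    exact_mod_cast h7
  linarith

open Classical in
theorem first (q a : ℕ) (hq : 1 ≤ q) (δ : ℝ) (hδ : 0 < δ) (hδ2 : δ ≤ 1 / 2) :
    ∃ c : ℝ, 0 < c ∧ ∀ᶠ N : ℕ in atTop,
      c * N ≤ ∑ n ∈ II q a N, (rr ⌊δ * Real.log N⌋₊ n : ℝ) := by
  obtain ⟨c0, hc0, hlow⟩ := pi_low q hq
  have hP := PP_pos q
  have hPR : (0 : ℝ) < PP q := by exact_mod_cast hP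
  refine ⟨δ * c0 / (4 * PP q), by positivity, ?_⟩
  have hlogt : Tendsto (fun N : ℕ => Real.log (N : ℝ)) atTop atTop :=
    Real.tendsto_log_atTop.comp tendsto_natCast_atTop_atTop
  have hlo := (isLittleO_log_rpow_atTop (r := (1 / 2 : ℝ)) (by norm_num)).def
    (c := c0 / 4) (by positivity)
  have hlo' := tendsto_natCast_atTop_atTop.eventually hlo
  filter_upwards [hlow, hlogt.eventually_ge_atTop (2 * (1 + PP q) / δ), hlo', eventually_ge_atTop 2]
    with N hlowN hbig hsmall hN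
  have hN0 : (0 : ℝ) < N := by positivity
  have hl : 0 < Real.log N := Real.log_pos (by exact_mod_cast hN)
  set L := Real.log N with hL
  set K := ⌊δ * L⌋₊ with hK
  have hKlow : δ * L - 1 ≤ (K : ℝ) := by
    have := Nat.lt_floor_add_one (δ * L)
    linarith
  have hpow := pow_floor_le δ hδ hδ2 N hN
  rw [← hL, ← hK] at hpow
  have hsN : 0 < Real.sqrt N := Real.sqrt_pos.2 hN0
  have hsm : L ≤ c0 / 4 * Real.sqrt N := by
    rw [Real.norm_of_nonneg hl.le, ← Real.sqrt_eq_rpow, Real.norm_of_nonneg hsN.le] at hsmall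
    exact hsmall
  have hsq : 2 * Real.sqrt N ≤ c0 / 2 * N / L := by
    rw [le_div_iff₀ hl]
    have h1 : Real.sqrt N * Real.sqrt N = N := Real.mul_self_sqrt hN0.le
    nlinarith [mul_le_mul_of_nonneg_left hsm hsN.le]
  have e : ∑ n ∈ II q a N, (rr K n : ℝ) = ((∑ n ∈ II q a N, rr K n : ℕ) : ℝ) := by push_cast; rfl
  rw [e, sum_rr]
  push_cast
  have h1 : ∑ k ∈ (Icc 1 K).filter (fun k => Ok (a : ℤ) q k),
      (((II q a N).filter (fun n => (n + hh k).Prime)).card : ℝ) ≤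
      ∑ k ∈ Icc 1 K, (((II q a N).filter (fun n => (n + hh k).Prime)).card : ℝ) :=
    sum_le_sum_of_subset_of_nonneg (filter_subset _ _) fun _ _ _ => Nat.cast_nonneg _
  refine le_trans ?_ h1
  have h2 : ∀ k ∈ (Icc 1 K).filter (fun k => Ok (a : ℤ) q k), c0 / 2 * N / L ≤
      (((II q a N).filter (fun n => (n + hh k).Prime)).card : ℝ) := by
    intro k hk
    rw [mem_filter, mem_Icc] at hk
    have h3 := hlowN _ (unit_of_ok q a k hq hk.2)
    have h4 := per_k q a N k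
    have h5 : (((Icc 1 N).filter (fun p : ℕ => p.Prime ∧ (p : ZMod q) = ((a + hh k : ℕ) : ZMod q))).card : ℝ) ≤
      (((II q a N).filter (fun n => (n + hh k).Prime)).card : ℝ) + ((hh k : ℝ) + (Nat.sqrt N : ℝ)) := by
      exact_mod_cast h4
    have h6 : (hh k : ℝ) ≤ Real.sqrt N := by
      have h7 := hh_lt_pow k hk.1.1
      have h8 : 2 ^ k ≤ 2 ^ K := Nat.pow_le_pow_right (by norm_num) hk.1.2
      have h9 : (hh k : ℝ) ≤ (2 : ℝ) ^ K := by exact_mod_cast h7.le.trans h8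
      exact h9.trans hpow
    have h7 : (Nat.sqrt N : ℝ) ≤ Real.sqrt N := Real.nat_sqrt_le_real_sqrt
    have h8 : c0 * N / L = c0 / 2 * N / L + c0 / 2 * N / L := by ring
    linarith
  have h3 := card_nsmul_le_sum _ _ _ h2
  rw [nsmul_eq_mul] at h3
  refine le_trans ?_ h3
  have h4 := card_G q a K
  have h5 : δ * L / (2 * PP q) ≤ (((Icc 1 K).filter (fun k => Ok (a : ℤ) q k)).card : ℝ) := by
    refine le_trans ?_ h4
    rw [div_le_iff₀ hδ] at hbig
    rw [div_sub_one hPR.ne', div_le_div_iff₀ (by positivity) hPR]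
    have h6 : δ * L ≤ 2 * ((K : ℝ) - PP q) := by nlinarith
    nlinarith
  have h6 : 0 ≤ c0 / 2 * N / L := by positivity
  calc δ * c0 / (4 * PP q) * N = δ * L / (2 * PP q) * (c0 / 2 * N / L) := by field_simp; ring
    _ ≤ _ := mul_le_mul_of_nonneg_right h5 h6

/-- `n = k + m` with `2 ^ k + m` prime and `k ≤ B` -/
def Rep (n : ℕ) (B : ℝ) : Prop :=
  ∃ k m : ℕ, 0 < k ∧ 0 < m ∧ k + m = n ∧ (2 ^ k + m).Prime ∧ (k : ℝ) ≤ B

open Classical in
theorem proportion (q a : ℕ) (hq : 1 ≤ q) (ε : ℝ) (hε : 0 < ε) :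
    ∃ c : ℝ, 0 < c ∧ ∀ᶠ N : ℕ in atTop,
      c * N ≤ (((Icc 1 N).filter (fun n => n ≡ a [MOD q] ∧ Rep n (ε * Real.log n))).card : ℝ) := by
  set δ : ℝ := min (ε / 2) (1 / 2) with hδdef
  have hδ : 0 < δ := lt_min (by linarith) (by norm_num)
  have hδ2 : δ ≤ 1 / 2 := min_le_right _ _
  have hδε : δ ≤ ε / 2 := min_le_left _ _
  obtain ⟨c1, hc1, hfirst⟩ := first q a hq δ hδ hδ2
  obtain ⟨C, hC, hsec⟩ := second
  refine ⟨c1 ^ 2 / (2 * C), by positivity, ?_⟩
  have hlogt : Tendsto (fun N : ℕ => Real.log (N : ℝ)) atTop atTop :=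
    Real.tendsto_log_atTop.comp tendsto_natCast_atTop_atTop
  filter_upwards [hfirst, hlogt.eventually_ge_atTop (1 / δ), eventually_ge_atTop 2] with N hf hbig hN
  have hN0 : (0 : ℝ) < N := by positivity
  have hl : 0 < Real.log N := Real.log_pos (by exact_mod_cast hN)
  have hpow := pow_floor_le δ hδ hδ2 N hN
  set L := Real.log N with hL
  set K := ⌊δ * L⌋₊ with hK
  have hK1 : 1 ≤ K := by
    rw [hK, Nat.one_le_floor_iff]
    rw [div_le_iff₀ hδ] at hbig
    linarith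
  have hKle : (K : ℝ) ≤ δ * L := Nat.floor_le (by positivity)
  have hKL : (K : ℝ) ≤ L := by nlinarith
  set T := (II q a N).filter (fun n => rr K n ≠ 0) with hT
  have hsumT : ∑ n ∈ II q a N, (rr K n : ℝ) = ∑ n ∈ T, (rr K n : ℝ) := by
    rw [hT, sum_filter]
    apply sum_congr rfl
    intro n _
    by_cases h : rr K n = 0
    · simp [h]
    · rw [if_pos h]
  have hCS := sq_sum_le_card_mul_sum_sq (s := T) (f := fun n => (rr K n : ℝ))
  have hsq : ∑ n ∈ T, (rr K n : ℝ) ^ 2 ≤ 2 * C * N := by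
    have h1 : ∑ n ∈ T, (rr K n : ℝ) ^ 2 ≤ ∑ n ∈ Icc 1 N, (rr K n : ℝ) ^ 2 := by
      apply sum_le_sum_of_subset_of_nonneg _ fun _ _ _ => by positivity
      exact (filter_subset _ _).trans (filter_subset _ _)
    have h2 := hsec N K hN hK1
    have h3 : (K : ℝ) * N / L ≤ N := by
      rw [div_le_iff₀ hl]
      nlinarith
    have h4 : (K : ℝ) ^ 2 * N / L ^ 2 ≤ N := by
      rw [div_le_iff₀ (by positivity)]
      have : (K : ℝ) ^ 2 ≤ L ^ 2 := pow_le_pow_left₀ (Nat.cast_nonneg _) hKL 2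
      nlinarith
    have h5 : C * ((K : ℝ) * N / L + (K : ℝ) ^ 2 * N / L ^ 2) ≤ C * (N + N) :=
      mul_le_mul_of_nonneg_left (add_le_add h3 h4) hC.le
    linarith
  have hsub : T ⊆ (Icc 1 N).filter (fun n => n ≡ a [MOD q] ∧ Rep n (ε * Real.log n)) := by
    intro n hn
    rw [hT, mem_filter, II, mem_filter] at hn
    obtain ⟨⟨hn1, hn2, hn3⟩, hn4⟩ := hn
    refine mem_filter.2 ⟨hn1, hn2, ?_⟩
    have h1 : 0 < ((Icc 1 K).filter (fun k => (n + hh k).Prime)).card := Nat.pos_of_ne_zero hn4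
    obtain ⟨k, hk⟩ := card_pos.1 h1
    rw [mem_filter, mem_Icc] at hk
    have hn0 : 1 ≤ n := (mem_Icc.1 hn1).1
    have h2 : 2 ^ K < n := by
      by_contra hcon
      push Not at hcon
      have h3 : (n : ℝ) ≤ Real.sqrt N := by
        refine le_trans ?_ hpow
        exact_mod_cast hcon
      have h4 : (n : ℝ) ^ 2 ≤ N := by
        have h5 := pow_le_pow_left₀ (Nat.cast_nonneg n) h3 2
        rwa [Real.sq_sqrt hN0.le] at h5
      have h6 : n ^ 2 ≤ N := by exact_mod_cast h4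
      omega
    have h3 : K < n := Nat.lt_two_pow_self.trans h2
    have h4 := hh_add k
    refine ⟨k, n - k, by omega, by omega, by omega, ?_, ?_⟩
    · rw [show 2 ^ k + (n - k) = n + hh k by omega]
      exact hk.2
    · have h5 : (k : ℝ) ≤ K := by exact_mod_cast hk.1.2
      have h6 : L ≤ 2 * Real.log n := by
        have h7 : Real.log N ≤ Real.log ((n : ℝ) ^ 2) := by
          apply Real.log_le_log hN0
          exact_mod_cast hn3.le
        rw [Real.log_pow] at h7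
        push_cast at h7
        exact h7
      have h8 : δ * L ≤ ε / 2 * L := mul_le_mul_of_nonneg_right hδε hl.le
      nlinarith
  have hcard : (T.card : ℝ) ≤
      (((Icc 1 N).filter (fun n => n ≡ a [MOD q] ∧ Rep n (ε * Real.log n))).card : ℝ) := by
    exact_mod_cast card_le_card hsub
  refine le_trans ?_ hcard
  rw [hsumT] at hf
  have h1 : (c1 * N) ^ 2 ≤ T.card * (2 * C * N) := by
    calc (c1 * N) ^ 2 ≤ (∑ n ∈ T, (rr K n : ℝ)) ^ 2 := pow_le_pow_left₀ (by positivity) hf 2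
      _ ≤ T.card * ∑ n ∈ T, (rr K n : ℝ) ^ 2 := hCS
      _ ≤ T.card * (2 * C * N) := mul_le_mul_of_nonneg_left hsq (Nat.cast_nonneg _)
  rw [div_mul_eq_mul_div, div_le_iff₀ (by positivity)]
  have h2 : (c1 ^ 2 * N) * N ≤ (T.card * (2 * C)) * N := by nlinarith
  exact le_of_mul_le_mul_right h2 hN0

end Pool.Agent.H53.SU
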