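import Pool.Agent.H53.SU.Fin
import Pool.Agent.H21.CG.Cell

/-!
# [H53 SU] Many representations
-/

set_option autoImplicit false

namespace Pool.Agent.H53.SU

open Finset

theorem dvd_diff (q : ℕ) (hq : 1 ≤ q) : ∃ e : ℕ, 1 ≤ e ∧ ∀ k R : ℕ, q ≤ k → e ∣ R →
    (q : ℤ) ∣ 2 ^ (k + R) - 2 ^ k := by
  obtain ⟨v, r, hr, hqr⟩ := Nat.exists_eq_two_pow_mul_odd (n := q) (by omega)
  have hr0 : 0 < r := hr.pos
  refine ⟨Nat.totient r, Nat.totient_pos.2 hr0, fun k R hk hR => ?_⟩
  have hv : v ≤ k := by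
    have h1 : v < 2 ^ v := Nat.lt_two_pow_self
    have h2 : 2 ^ v ≤ q := by rw [hqr]; exact Nat.le_mul_of_pos_right _ hr0
    omega
  obtain ⟨c, hc⟩ := hR
  have h3 : (2 : ℤ) ^ (k + R) - 2 ^ k = 2 ^ v * (2 ^ (k - v) * (2 ^ R - 1)) := by
    have h4 : (2 : ℤ) ^ k = 2 ^ v * 2 ^ (k - v) := by rw [← pow_add]; congr 1; omega
    rw [pow_add, h4]
    ring
  have h5 : (r : ℤ) ∣ 2 ^ R - 1 := by
    have h6 : 2 ^ Nat.totient r ≡ 1 [MOD r] :=
      Nat.ModEq.pow_totient ((Nat.coprime_two_left).2 hr)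
    have h7 : 2 ^ R ≡ 1 [MOD r] := by
      rw [hc, pow_mul]
      have := h6.pow c
      rwa [one_pow] at this
    have h8 := (Nat.modEq_iff_dvd.1 h7.symm)
    push_cast at h8
    exact h8
  rw [h3, hqr]
  push_cast
  exact mul_dvd_mul_left _ (h5.mul_left _)

open Classical in
theorem many (q a m : ℕ) (hq : 1 ≤ q) : ∃ B : ℕ, ∀ n0 : ℕ, ∃ n : ℕ, n0 < n ∧ n ≡ a [MOD q] ∧
    m ≤ ((Icc 1 B).filter (fun k => k < n ∧ (2 ^ k + (n - k)).Prime)).card := by
  obtain ⟨s, hs, hcells⟩ := Pool.Agent.H21.CG.cells (20 * (m + 1)) (by omega)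
  set M := 20 * (m + 1) with hM
  set S0 := M * s with hS0
  obtain ⟨e, he, hdiff⟩ := dvd_diff q hq
  set R := q * e * PP S0 with hR
  have hR0 : 1 ≤ R := Nat.mul_pos (Nat.mul_pos hq he) (PP_pos S0)
  -- the first exponent
  have hk0 : ∃ k0, k0 ∈ Ioc q (q + PP q) ∧ Ok (a : ℤ) q k0 := by
    have h1 : 0 < ((Ioc q (q + PP q)).filter (Ok (a : ℤ) q)).card := by
      rw [dens]; exact AA_pos q
    obtain ⟨k0, hk0⟩ := card_pos.1 h1
    rw [mem_filter] at hk0
    exact ⟨k0, hk0.1, hk0.2⟩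
  obtain ⟨k0, hk0q, hk0ok⟩ := hk0
  have hk0q' : q < k0 := (mem_Ioc.1 hk0q).1
  set b : ℕ → ℤ := fun t => ((hh (k0 + R * t) : ℕ) : ℤ) - ((hh k0 : ℕ) : ℤ) with hb
  have hcast : ∀ k : ℕ, ((hh k : ℕ) : ℤ) = 2 ^ k - k := by
    intro k
    have := hh_add k
    have h1 : ((hh k : ℕ) : ℤ) + k = 2 ^ k := by exact_mod_cast this
    linarith
  have hbinj : Function.Injective b := by
    intro t t' h
    simp only [hb] at h
    have h1 : hh (k0 + R * t) = hh (k0 + R * t') := by
      have : ((hh (k0 + R * t) : ℕ) : ℤ) = ((hh (k0 + R * t') : ℕ) : ℤ) := by linarith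
      exact_mod_cast this
    rcases lt_trichotomy t t' with hlt | heq | hgt
    · exfalso
      have h2 : k0 + R * t < k0 + R * t' := by
        have := Nat.mul_lt_mul_of_pos_left hlt hR0
        omega
      have h3 := hh_lt (k := k0 + R * t) (by omega) h2
      omega
    · exact heq
    · exfalso
      have h2 : k0 + R * t' < k0 + R * t := by
        have := Nat.mul_lt_mul_of_pos_left hgt hR0
        omega
      have h3 := hh_lt (k := k0 + R * t') (by omega) h2
      omega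
  have hbq : ∀ t, (q : ℤ) ∣ b t := by
    intro t
    simp only [hb, hcast]
    have h1 := hdiff k0 (R * t) hk0q'.le (by
      rw [hR]
      exact ⟨q * PP S0 * t, by ring⟩)
    have h2 : (q : ℤ) ∣ ((R * t : ℕ) : ℤ) := by
      rw [hR]
      exact_mod_cast (⟨e * PP S0 * t, by ring⟩ : q ∣ q * e * PP S0 * t)
    have h3 : (2 : ℤ) ^ (k0 + R * t) - ((k0 + R * t : ℕ) : ℤ) - (2 ^ k0 - (k0 : ℤ)) =
        ((2 : ℤ) ^ (k0 + R * t) - 2 ^ k0) - ((R * t : ℕ) : ℤ) := by push_cast; ring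
    rw [h3]
    exact dvd_sub h1 h2
  have hbp : ∀ p : ℕ, p.Prime → p ≤ S0 → ∀ t, (p : ℤ) ∣ b t := by
    intro p hp hpS t
    have h1 : p * (p - 1) ∣ R * t := by
      have := dvd_PP hp hpS
      rw [hR]
      exact ((this.mul_left (q * e))).mul_right t
    have h2 := (period hp h1 (k := k0) (by omega) (-(2 ^ k0 - (k0 : ℤ)))).2 (by
      rw [show (2 : ℤ) ^ k0 + -(2 ^ k0 - (k0 : ℤ)) - k0 = 0 by ring]
      exact dvd_zero _)
    simp only [hb, hcast]
    rw [show (2 : ℤ) ^ (k0 + R * t) - ((k0 + R * t : ℕ) : ℤ) - (2 ^ k0 - (k0 : ℤ)) =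
      2 ^ (k0 + R * t) + -(2 ^ k0 - (k0 : ℤ)) - ((k0 + R * t : ℕ) : ℤ) by ring]
    exact h2
  set V : Fin M → Finset ℤ := fun j => (Ico ((j : ℕ) * s) (((j : ℕ) + 1) * s)).image b with hV
  have hVmem : ∀ (j : Fin M) (h : ℤ), h ∈ V j → ∃ t, (j : ℕ) * s ≤ t ∧ t < ((j : ℕ) + 1) * s ∧ t < S0 ∧ b t = h := by
    intro j h hh'
    simp only [hV, mem_image, mem_Ico] at hh'
    obtain ⟨t, ⟨h1, h2⟩, h3⟩ := hh'
    refine ⟨t, h1, h2, ?_, h3⟩
    have h4 : ((j : ℕ) + 1) * s ≤ M * s := Nat.mul_le_mul_right _ j.isLt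
    omega
  have hVcard : ∀ j, (V j).card = s := by
    intro j
    simp only [hV]
    rw [card_image_of_injective _ hbinj, Nat.card_Ico, Nat.succ_mul]
    omega
  have hVdisj : ∀ i j, i ≠ j → Disjoint (V i) (V j) := by
    intro i j hij
    rw [Finset.disjoint_left]
    intro h hi hj
    obtain ⟨t, h1, h2, _, h3⟩ := hVmem i h hi
    obtain ⟨t', h1', h2', _, h3'⟩ := hVmem j h hj
    have h4 : t = t' := hbinj (h3.trans h3'.symm)
    subst h4
    have h5 : t / s = (i : ℕ) := Nat.div_eq_of_lt_le h1 h2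
    have h6 : t / s = (j : ℕ) := Nat.div_eq_of_lt_le h1' h2'
    exact hij (Fin.ext (h5.symm.trans h6))
  have hadm : ∀ p : ℕ, p.Prime → ∃ a : ℤ, ∀ j, ∀ h ∈ V j, ¬ (p : ℤ) ∣ a + h := by
    intro p hp
    have := Fact.mk hp
    by_cases hpS : p ≤ S0
    · refine ⟨1, fun j h hj hd => ?_⟩
      obtain ⟨t, _, _, _, rfl⟩ := hVmem j h hj
      have h1 : (p : ℤ) ∣ 1 := (dvd_add_left (hbp p hp hpS t)).1 hd
      have h2 : p ∣ 1 := by exact_mod_cast h1
      exact hp.one_lt.ne' (Nat.dvd_one.1 h2)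
    · push Not at hpS
      have h1 : ((range S0).image (fun t => -((b t : ℤ) : ZMod p))).card < (univ : Finset (ZMod p)).card := by
        refine lt_of_le_of_lt card_image_le ?_
        rw [card_range, card_univ, ZMod.card]
        exact hpS
      obtain ⟨z, hz⟩ : ∃ z, z ∉ (range S0).image (fun t => -((b t : ℤ) : ZMod p)) := by
        by_contra hcon
        push Not at hcon
        have : (univ : Finset (ZMod p)) ⊆ (range S0).image (fun t => -((b t : ℤ) : ZMod p)) :=
          fun z _ => hcon z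
        exact absurd (card_le_card this) (not_le.2 h1)
      refine ⟨(z.val : ℤ), fun j h hj hd => ?_⟩
      obtain ⟨t, _, _, ht, rfl⟩ := hVmem j h hj
      apply hz
      rw [mem_image]
      refine ⟨t, mem_range.2 ht, ?_⟩
      rw [← ZMod.intCast_zmod_eq_zero_iff_dvd] at hd
      push_cast at hd
      rw [ZMod.natCast_zmod_val] at hd
      linear_combination (-1 : ZMod p) * hd
  have hcop : Nat.Coprime (a + hh k0) q := (ZMod.isUnit_iff_coprime _ _).1 (unit_of_ok q a k0 hq hk0ok)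
  refine ⟨k0 + R * S0, fun n0 => ?_⟩
  obtain ⟨T, μ, hT, hμ0, hμ1, hone⟩ := hcells (Fin M) V (Fintype.card_fin M) hVcard hVdisj hadm q (a + hh k0) hq
    (by
      intro j h hj
      obtain ⟨t, _, _, _, rfl⟩ := hVmem j h hj
      exact hbq t) hcop 0 (n0 + (k0 + R * S0) + hh k0)
  -- some N has many good cells
  have hex : ∃ N ∈ T, m + 1 ≤ ((univ : Finset (Fin M)).filter (fun j => Pool.Agent.H21.CG.One N (V j))).card := by
    by_contra hcon
    push Not at hcon
    have h1 : ∑ N ∈ T, μ N * (((univ : Finset (Fin M)).filter (fun j => Pool.Agent.H21.CG.One N (V j))).card : ℝ) ≤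
        ∑ N ∈ T, μ N * m := by
      apply sum_le_sum
      intro N hN
      apply mul_le_mul_of_nonneg_left _ (hμ0 N)
      exact_mod_cast Nat.lt_succ_iff.1 (hcon N hN)
    rw [← sum_mul, hμ1, one_mul] at h1
    have h2 : ∑ N ∈ T, μ N * (((univ : Finset (Fin M)).filter (fun j => Pool.Agent.H21.CG.One N (V j))).card : ℝ) =
        ∑ j : Fin M, ∑ N ∈ T.filter (fun N => Pool.Agent.H21.CG.One N (V j)), μ N := by
      simp only [sum_filter]
      rw [sum_comm]
      apply sum_congr rfl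
      intro N _
      rw [← sum_filter, sum_const, nsmul_eq_mul, mul_comm]
    rw [h2] at h1
    have h3 : ∑ j : Fin M, (1 / 20 : ℝ) ≤ ∑ j : Fin M, ∑ N ∈ T.filter (fun N => Pool.Agent.H21.CG.One N (V j)), μ N :=
      sum_le_sum fun j _ => hone j
    rw [sum_const, card_univ, Fintype.card_fin, nsmul_eq_mul] at h3
    have hMR : (M : ℝ) = 20 * (m + 1) := by rw [hM]; push_cast; ring
    rw [hMR] at h3
    linarith
  obtain ⟨N, hNT, hNm⟩ := hex
  obtain ⟨hN0, hNc, _⟩ := hT N hNT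
  refine ⟨N - hh k0, by omega, ?_, ?_⟩
  · have h1 : N - hh k0 + hh k0 ≡ a + hh k0 [MOD q] := by
      rw [Nat.sub_add_cancel (by omega)]
      exact hNc
    exact Nat.ModEq.add_right_cancel' _ h1
  · set Ts := (range S0).filter (fun t => Pool.Agent.H30.CP.PP N (b t)) with hTs
    have h1 : (((univ : Finset (Fin M)).filter (fun j : Fin M => Pool.Agent.H21.CG.One N (V j))).image
        (Fin.val : Fin M → ℕ)) ⊆ (Ts.image (fun t : ℕ => t / s)) := by
      intro x hx
      rw [mem_image] at hx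
      obtain ⟨j, hj, rfl⟩ := hx
      obtain ⟨h, hh1, hh2, _⟩ := (mem_filter.1 hj).2
      obtain ⟨t, h1, h2, h3, rfl⟩ := hVmem j h hh1
      rw [mem_image]
      exact ⟨t, mem_filter.2 ⟨mem_range.2 h3, hh2⟩, Nat.div_eq_of_lt_le h1 h2⟩
    have h2 := (card_le_card h1).trans card_image_le
    rw [card_image_of_injective _ Fin.val_injective] at h2
    have h3 : Ts.card ≤ ((Icc 1 (k0 + R * S0)).filter
        (fun k => k < N - hh k0 ∧ (2 ^ k + (N - hh k0 - k)).Prime)).card := by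
      apply card_le_card_of_injOn (fun t => k0 + R * t)
      · intro t ht
        have ht' := mem_filter.1 (mem_coe.1 ht)
        have ht1 := mem_range.1 ht'.1
        have h4 : R * t ≤ R * S0 := Nat.mul_le_mul_left _ ht1.le
        refine mem_coe.2 (mem_filter.2 ⟨mem_Icc.2 ⟨?_, ?_⟩, ?_, ?_⟩)
        · show 1 ≤ k0 + R * t
          omega
        · show k0 + R * t ≤ k0 + R * S0
          omega
        · show k0 + R * t < N - hh k0
          omega
        · show (2 ^ (k0 + R * t) + (N - hh k0 - (k0 + R * t))).Prime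
          have h5 : Nat.Prime (((N : ℤ) + b t).toNat) := ht'.2
          have h6 := hh_add (k0 + R * t)
          have h7 : 2 ^ (k0 + R * t) + (N - hh k0 - (k0 + R * t)) = ((N : ℤ) + b t).toNat := by
            simp only [hb]
            omega
          rw [h7]
          exact h5
      · intro t _ t' _ h
        simp only at h
        have h8 : R * t = R * t' := by omega
        exact Nat.eq_of_mul_eq_mul_left hR0 h8
    omega

end Pool.Agent.H53.SU
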