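import Pool.Agent.H53.SU.Wt

/-!
# [H53 SU] Prime pairs in an arbitrary interval, with the weights `p ^ (-3/4)`

The proof of `H24/LJ/Pairs` with `lemmaU34`.
-/

set_option autoImplicit false

namespace Pool.Agent.H53.SU

open Finset Pool.Agent.H5.W Pool.Agent.H5.Short Pool.Agent.H24.LJ

theorem pairs34 : ∃ C : ℝ, 0 < C ∧ ∀ M X d : ℕ, 2 ≤ X → 1 ≤ d →
    (((Ioc M (M + X)).filter (fun p => p.Prime ∧ (p + d).Prime)).card : ℝ) ≤
      C * (1 + ∑ p ∈ (2 * d).primeFactors, wt p) * X / (Real.log X) ^ 2 := by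
  obtain ⟨C0, hC0, hps⟩ := pair_sieve_loc
  obtain ⟨C1, hC1, hU⟩ := lemmaU34 2
  refine ⟨200 + 200 * C0 * C1, by positivity, ?_⟩
  intro M X d hX hd
  have hXR : (2 : ℝ) ≤ X := by exact_mod_cast hX
  have hX0 : (0 : ℝ) < X := by linarith
  have hlog : 0 < Real.log X := Real.log_pos (by linarith)
  have hlogsq := log_sq_le X (by linarith)
  have hsum0 : 0 ≤ ∑ p ∈ (2 * d).primeFactors, wt p :=
    sum_nonneg fun p _ => wt_nonneg p
  have hcardX : (((Ioc M (M + X)).filter (fun p => p.Prime ∧ (p + d).Prime)).card : ℝ) ≤ X := by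
    have : ((Ioc M (M + X)).filter (fun p => p.Prime ∧ (p + d).Prime)).card ≤ X := by
      calc _ ≤ (Ioc M (M + X)).card := card_le_card (filter_subset _ _)
        _ = X := by rw [Nat.card_Ioc]; omega
    exact_mod_cast this
  rcases lt_or_ge X 32 with hsmall | hlarge
  · -- small X
    refine hcardX.trans ?_
    rw [le_div_iff₀ (by positivity)]
    have h1 : (Real.log X) ^ 2 ≤ 200 := by
      have h2 : (X : ℝ) ^ ((1 : ℝ) / 5) ≤ 2 := by
        have h3 : (X : ℝ) ≤ 32 := by exact_mod_cast hsmall.le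
        calc (X : ℝ) ^ ((1 : ℝ) / 5) ≤ (32 : ℝ) ^ ((1 : ℝ) / 5) := by gcongr
          _ = 2 := by
            rw [show (32 : ℝ) = 2 ^ (5 : ℝ) by norm_num, ← Real.rpow_mul (by norm_num)]
            norm_num
      linarith
    have h4 : 200 ≤ (200 + 200 * C0 * C1) * (1 + ∑ p ∈ (2 * d).primeFactors, wt p) := by
      have : 0 ≤ 200 * C0 * C1 := by positivity
      nlinarith
    calc (X : ℝ) * (Real.log X) ^ 2 ≤ X * 200 := by gcongr
      _ ≤ X * ((200 + 200 * C0 * C1) * (1 + ∑ p ∈ (2 * d).primeFactors, wt p)) := by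
          gcongr
      _ = _ := by ring
  · -- large X
    set J : ℕ := ⌊(X : ℝ) ^ ((1 : ℝ) / 5)⌋₊ with hJdef
    have hroot0 : (0 : ℝ) ≤ (X : ℝ) ^ ((1 : ℝ) / 5) := by positivity
    have hroot : ((X : ℝ) ^ ((1 : ℝ) / 5)) ^ 5 = X := by
      rw [← Real.rpow_natCast, ← Real.rpow_mul hX0.le]; norm_num
    have hJ2 : 2 ≤ J := by
      rw [hJdef]
      apply Nat.le_floor
      push_cast
      calc (2 : ℝ) = (32 : ℝ) ^ ((1 : ℝ) / 5) := by
            rw [show (32 : ℝ) = 2 ^ (5 : ℝ) by norm_num, ← Real.rpow_mul (by norm_num)]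
            norm_num
        _ ≤ (X : ℝ) ^ ((1 : ℝ) / 5) := by
            apply Real.rpow_le_rpow (by norm_num) (by exact_mod_cast hlarge) (by norm_num)
    have hJle : (J : ℝ) ≤ (X : ℝ) ^ ((1 : ℝ) / 5) := Nat.floor_le hroot0
    have hJlt : (X : ℝ) ^ ((1 : ℝ) / 5) < J + 1 := Nat.lt_floor_add_one _
    have hJR : (2 : ℝ) ≤ J := by exact_mod_cast hJ2
    have hlogJ : 0 < Real.log J := Real.log_pos (by linarith)
    have hXJ : (X : ℝ) ≤ (J : ℝ) ^ 10 := by
      calc (X : ℝ) = ((X : ℝ) ^ ((1 : ℝ) / 5)) ^ 5 := hroot.symm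
        _ ≤ ((J : ℝ) + 1) ^ 5 := by gcongr
        _ ≤ ((J : ℝ) ^ 2) ^ 5 := by
            gcongr
            nlinarith
        _ = (J : ℝ) ^ 10 := by ring
    have hlogXJ : Real.log X ≤ 10 * Real.log J := by
      have := Real.log_le_log hX0 hXJ
      rw [Real.log_pow] at this
      push_cast at this
      exact this
    have hJ4 : (J : ℝ) ^ 4 ≤ 100 * X / (Real.log X) ^ 2 := by
      rw [le_div_iff₀ (by positivity)]
      calc (J : ℝ) ^ 4 * (Real.log X) ^ 2 ≤
          ((X : ℝ) ^ ((1 : ℝ) / 5)) ^ 4 * (100 * (X : ℝ) ^ ((1 : ℝ) / 5)) := by gcongr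
        _ = 100 * ((X : ℝ) ^ ((1 : ℝ) / 5)) ^ 5 := by ring
        _ = 100 * X := by rw [hroot]
    -- the set
    set S : Finset ℕ := ((Ioc M (M + X)).filter (fun p => p.Prime ∧ (p + d).Prime ∧ J < p)).image
      (fun p => p + d) with hS
    have hScard : S.card = ((Ioc M (M + X)).filter (fun p => p.Prime ∧ (p + d).Prime ∧ J < p)).card := by
      rw [hS]
      apply card_image_of_injective
      intro a b h
      simpa using h
    have hsplit : ((Ioc M (M + X)).filter (fun p => p.Prime ∧ (p + d).Prime)).card ≤ J + S.card := by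
      rw [hScard]
      have hsub : (Ioc M (M + X)).filter (fun p => p.Prime ∧ (p + d).Prime) ⊆
          Icc 1 J ∪ (Ioc M (M + X)).filter (fun p => p.Prime ∧ (p + d).Prime ∧ J < p) := by
        intro p hp
        rw [mem_filter, mem_Ioc] at hp
        rw [mem_union, mem_filter, mem_Icc, mem_Ioc]
        by_cases h : p ≤ J
        · left; exact ⟨hp.2.1.one_lt.le, h⟩
        · right; exact ⟨hp.1, hp.2.1, hp.2.2, by omega⟩
      refine (card_le_card hsub).trans ((card_union_le _ _).trans ?_)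
      rw [Nat.card_Icc]
      omega
    have hkey := hps J d 0 1 1 (M + d) (2 * X) hJ2 one_pos one_pos (by omega) S (by
      intro v hv
      rw [hS, mem_image] at hv
      obtain ⟨p, hp, rfl⟩ := hv
      rw [mem_filter, mem_Ioc] at hp
      obtain ⟨⟨h1, h2⟩, h3, h4, h5⟩ := hp
      exact ⟨by omega, by omega, p, p + d, h3, h4, h5, by omega, by ring, by ring⟩)
    have hE : EE d 0 1 1 = 2 * d := by
      unfold EE
      simp
    rw [hE] at hkey
    have hrz : (rhoz J (2 * d)) ^ 2 ≤ C1 * (1 + ∑ p ∈ (2 * d).primeFactors, wt p) := by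
      have h1 := rhoz_le_rho J (2 * d) (by omega)
      have h2 := hU (2 * d).primeFactors (fun p hp => Nat.prime_of_mem_primeFactors hp)
      have h3 := (rhoz_pos J (2 * d)).le
      calc (rhoz J (2 * d)) ^ 2 ≤ (rho (2 * d)) ^ 2 := by gcongr
        _ ≤ _ := h2
    have hkey2 : (S.card : ℝ) ≤ 200 * C0 * C1 * (1 + ∑ p ∈ (2 * d).primeFactors, wt p) *
        X / (Real.log X) ^ 2 + (J : ℝ) ^ 4 := by
      refine hkey.trans ?_
      gcongr ?_ + _
      have e1 : C0 * (((2 * X : ℕ) : ℝ) * (Nat.gcd 1 1) / (((1 : ℕ) : ℝ) * ((1 : ℕ) : ℝ))) *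
          rhoz J (2 * d) ^ 2 / Real.log J ^ 2 =
          (2 * C0 * X) * (rhoz J (2 * d) ^ 2) / Real.log J ^ 2 := by
        push_cast
        simp
        ring
      rw [e1, div_le_div_iff₀ (by positivity) (by positivity)]
      have h5 : (Real.log X) ^ 2 ≤ 100 * (Real.log J) ^ 2 := by
        calc (Real.log X) ^ 2 ≤ (10 * Real.log J) ^ 2 := by gcongr
          _ = _ := by ring
      calc (2 * C0 * X) * (rhoz J (2 * d) ^ 2) * (Real.log X) ^ 2
          ≤ (2 * C0 * X) * (C1 * (1 + ∑ p ∈ (2 * d).primeFactors, wt p)) *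
            (100 * (Real.log J) ^ 2) := by gcongr
        _ = _ := by ring
    have hJJ : (J : ℝ) ≤ (J : ℝ) ^ 4 := by
      calc (J : ℝ) = (J : ℝ) ^ 1 := (pow_one _).symm
        _ ≤ (J : ℝ) ^ 4 := pow_le_pow_right₀ (by linarith) (by norm_num)
    have hfin : (((Ioc M (M + X)).filter (fun p => p.Prime ∧ (p + d).Prime)).card : ℝ) ≤
        (J : ℝ) + S.card := by exact_mod_cast hsplit
    have h200 : 200 * X / (Real.log X) ^ 2 ≤
        200 * (1 + ∑ p ∈ (2 * d).primeFactors, wt p) * X / (Real.log X) ^ 2 := by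
      gcongr
      nlinarith
    calc (((Ioc M (M + X)).filter (fun p => p.Prime ∧ (p + d).Prime)).card : ℝ)
        ≤ (J : ℝ) + S.card := hfin
      _ ≤ 2 * (J : ℝ) ^ 4 + 200 * C0 * C1 * (1 + ∑ p ∈ (2 * d).primeFactors, wt p) *
            X / (Real.log X) ^ 2 := by linarith
      _ ≤ 2 * (100 * X / (Real.log X) ^ 2) + 200 * C0 * C1 *
            (1 + ∑ p ∈ (2 * d).primeFactors, wt p) * X / (Real.log X) ^ 2 := by
          gcongr
      _ = 200 * X / (Real.log X) ^ 2 + 200 * C0 * C1 *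
            (1 + ∑ p ∈ (2 * d).primeFactors, wt p) * X / (Real.log X) ^ 2 := by ring
      _ ≤ 200 * (1 + ∑ p ∈ (2 * d).primeFactors, wt p) * X / (Real.log X) ^ 2 +
            200 * C0 * C1 * (1 + ∑ p ∈ (2 * d).primeFactors, wt p) * X /
            (Real.log X) ^ 2 := by linarith
      _ = _ := by ring

end Pool.Agent.H53.SU
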