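import Pool.Agent.H53.SU.Avg
import Pool.Agent.H53.SU.Dens
import Pool.Agent.H53.SU.Pr
import Pool.Agent.H5.PNT.PNT

/-!
# [H53 SU] First and second moment of the number of representations
-/

set_option autoImplicit false

namespace Pool.Agent.H53.SU

open Finset Filter Topology Pool.Agent.H5.PNT Pool.Agent.H24.LJ

/-- the number of `k ≤ K` with `n + 2 ^ k - k` prime -/
def rr (K n : ℕ) : ℕ := ((Icc 1 K).filter (fun k => (n + hh k).Prime)).card

/-- the `n` between `√N` and `N` in the class `a` modulo `q` -/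
def II (q a N : ℕ) : Finset ℕ := (Icc 1 N).filter (fun n => n ≡ a [MOD q] ∧ N < n ^ 2)

theorem pi_low (q : ℕ) (hq : 1 ≤ q) : ∃ c : ℝ, 0 < c ∧ ∀ᶠ N : ℕ in atTop, ∀ b : ZMod q, IsUnit b →
    c * N / Real.log N ≤ (((Icc 1 N).filter (fun p : ℕ => p.Prime ∧ (p : ZMod q) = b)).card : ℝ) := by
  have : NeZero q := ⟨by omega⟩
  have hφ : 0 < (q.totient : ℝ) := by exact_mod_cast Nat.totient_pos.2 hq
  have hφ' : 0 < (q.totient : ℝ)⁻¹ := by positivity
  refine ⟨(q.totient : ℝ)⁻¹ / 2, by positivity, ?_⟩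
  rw [eventually_all]
  intro b
  by_cases hb : IsUnit b
  · have h1 := (pi_ap q b hb).eventually_const_lt (u := (q.totient : ℝ)⁻¹ / 2) (by linarith)
    have h2 := tendsto_natCast_atTop_atTop.eventually h1
    filter_upwards [h2, eventually_ge_atTop 2] with N hN hN2 _
    have hN0 : (0 : ℝ) < N := by positivity
    have hl : 0 < Real.log N := Real.log_pos (by exact_mod_cast hN2)
    unfold primesIn at hN
    rw [Nat.floor_natCast, lt_div_iff₀ hN0] at hN
    rw [div_le_iff₀ hl]
    exact hN.le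
  · exact Eventually.of_forall fun N h => absurd h hb

theorem per_k (q a N k : ℕ) :
    ((Icc 1 N).filter (fun p : ℕ => p.Prime ∧ (p : ZMod q) = ((a + hh k : ℕ) : ZMod q))).card ≤
      ((II q a N).filter (fun n => (n + hh k).Prime)).card + (hh k + Nat.sqrt N) := by
  have hsub : (Icc 1 N).filter (fun p : ℕ => p.Prime ∧ (p : ZMod q) = ((a + hh k : ℕ) : ZMod q)) ⊆
      ((Icc 1 N).filter (fun p : ℕ => (p.Prime ∧ (p : ZMod q) = ((a + hh k : ℕ) : ZMod q)) ∧
        hh k + Nat.sqrt N < p)) ∪ Icc 1 (hh k + Nat.sqrt N) := by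
    intro p hp
    rw [mem_filter, mem_Icc] at hp
    rw [mem_union, mem_filter, mem_Icc, mem_Icc]
    rcases le_or_gt p (hh k + Nat.sqrt N) with h | h
    · exact Or.inr ⟨hp.1.1, h⟩
    · exact Or.inl ⟨hp.1, hp.2, h⟩
  refine (card_le_card hsub).trans ((card_union_le _ _).trans ?_)
  rw [Nat.card_Icc, Nat.add_sub_cancel]
  apply Nat.add_le_add_right
  apply card_le_card_of_injOn (fun p => p - hh k)
  · intro p hp
    have hp' := mem_filter.1 (mem_coe.1 hp)
    obtain ⟨hp1, ⟨hp2, hp3⟩, hp4⟩ := hp'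
    rw [mem_Icc] at hp1
    refine mem_coe.2 (mem_filter.2 ⟨mem_filter.2 ⟨mem_Icc.2 ⟨?_, ?_⟩, ?_, ?_⟩, ?_⟩)
    · show 1 ≤ p - hh k
      omega
    · show p - hh k ≤ N
      omega
    · show p - hh k ≡ a [MOD q]
      rw [← ZMod.natCast_eq_natCast_iff, Nat.cast_sub (by omega), hp3]
      push_cast
      ring
    · show N < (p - hh k) ^ 2
      have h1 : Nat.sqrt N + 1 ≤ p - hh k := by omega
      have h2 := Nat.lt_succ_sqrt N
      have h3 : (Nat.sqrt N + 1) * (Nat.sqrt N + 1) ≤ (p - hh k) * (p - hh k) := Nat.mul_le_mul h1 h1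
      rw [pow_two]
      exact lt_of_lt_of_le h2 h3
    · show (p - hh k + hh k).Prime
      rw [Nat.sub_add_cancel (by omega)]
      exact hp2
  · intro p hp p' hp' he
    have h1 := (mem_filter.1 (mem_coe.1 hp)).2.2
    have h2 := (mem_filter.1 (mem_coe.1 hp')).2.2
    simp only at he
    omega

theorem sum_rr (S : Finset ℕ) (K : ℕ) :
    ∑ n ∈ S, rr K n = ∑ k ∈ Icc 1 K, (S.filter (fun n => (n + hh k).Prime)).card := by
  unfold rr
  simp only [card_filter]
  exact sum_comm

theorem rr_sq (K n : ℕ) : rr K n ^ 2 ≤ rr K n +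
    2 * ((DD K).filter (fun q => (n + hh q.1).Prime ∧ (n + hh q.2).Prime)).card := by
  set T := (Icc 1 K).filter (fun k => (n + hh k).Prime) with hT
  set B := (DD K).filter (fun q => (n + hh q.1).Prime ∧ (n + hh q.2).Prime) with hB
  have h1 : T ×ˢ T ⊆ (T.image (fun k => (k, k)) ∪ B) ∪ B.image Prod.swap := by
    rintro ⟨k, l⟩ h
    rw [mem_product] at h
    obtain ⟨hk, hl⟩ := h
    simp only at hk hl
    have hk' := mem_filter.1 hk
    have hl' := mem_filter.1 hl
    rw [mem_union, mem_union]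
    rcases lt_trichotomy k l with h | h | h
    · refine Or.inl (Or.inr (mem_filter.2 ⟨mem_filter.2 ⟨mem_product.2 ⟨hk'.1, hl'.1⟩, h⟩, hk'.2, hl'.2⟩))
    · refine Or.inl (Or.inl (mem_image.2 ⟨k, hk, ?_⟩))
      rw [h]
    · refine Or.inr (mem_image.2 ⟨(l, k), mem_filter.2 ⟨mem_filter.2 ⟨mem_product.2 ⟨hl'.1, hk'.1⟩, h⟩,
        hl'.2, hk'.2⟩, rfl⟩)
  have h2 := card_le_card h1
  rw [card_product] at h2
  have h3 := card_union_le (T.image (fun k => (k, k)) ∪ B) (B.image Prod.swap)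
  have h4 := card_union_le (T.image (fun k => (k, k))) B
  have h5 : (T.image (fun k => (k, k))).card ≤ T.card := card_image_le
  have h6 : (B.image Prod.swap).card ≤ B.card := card_image_le
  have h7 : rr K n = T.card := rfl
  rw [h7, pow_two]
  omega

theorem second : ∃ C : ℝ, 0 < C ∧ ∀ N K : ℕ, 2 ≤ N → 1 ≤ K →
    ∑ n ∈ Icc 1 N, (rr K n : ℝ) ^ 2 ≤
      C * ((K : ℝ) * N / Real.log N + (K : ℝ) ^ 2 * N / (Real.log N) ^ 2) := by
  obtain ⟨C1, hC1, h1⟩ := pi_loc
  obtain ⟨C2, hC2, h2⟩ := pairs34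
  refine ⟨C1 + 100 * C2, by positivity, fun N K hN hK => ?_⟩
  have hN0 : (0 : ℝ) < N := by positivity
  have hl : 0 < Real.log N := Real.log_pos (by exact_mod_cast hN)
  have hK0 : (0 : ℝ) < K := by exact_mod_cast hK
  have hA : ∑ n ∈ Icc 1 N, (rr K n : ℝ) ≤ (K : ℝ) * (C1 * N / Real.log N) := by
    have e : ∑ n ∈ Icc 1 N, (rr K n : ℝ) = ((∑ n ∈ Icc 1 N, rr K n : ℕ) : ℝ) := by push_cast; rfl
    rw [e, sum_rr]
    push_cast
    have h3 : ∀ k ∈ Icc 1 K, (((Icc 1 N).filter (fun n => (n + hh k).Prime)).card : ℝ) ≤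
        C1 * N / Real.log N := by
      intro k _
      refine le_trans ?_ (h1 (hh k) N hN)
      have h4 : ((Icc 1 N).filter (fun n => (n + hh k).Prime)).card ≤
          ((Ioc (hh k) (hh k + N)).filter Nat.Prime).card := by
        apply card_le_card_of_injOn (fun n => n + hh k)
        · intro n hn
          have hn' := mem_filter.1 (mem_coe.1 hn)
          have := mem_Icc.1 hn'.1
          refine mem_coe.2 (mem_filter.2 ⟨mem_Ioc.2 ⟨?_, ?_⟩, hn'.2⟩)
          · show hh k < n + hh k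
            omega
          · show n + hh k ≤ hh k + N
            omega
        · intro a _ b _ h
          simp only at h
          omega
      exact_mod_cast h4
    have h5 := sum_le_sum h3
    rw [sum_const, nsmul_eq_mul, Nat.card_Icc, Nat.add_sub_cancel] at h5
    exact h5
  have hB : ∑ n ∈ Icc 1 N, (((DD K).filter (fun q => (n + hh q.1).Prime ∧ (n + hh q.2).Prime)).card : ℝ) ≤
      50 * (K : ℝ) ^ 2 * (C2 * N / (Real.log N) ^ 2) := by
    have e : ∑ n ∈ Icc 1 N, ((DD K).filter (fun q => (n + hh q.1).Prime ∧ (n + hh q.2).Prime)).card =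
        ∑ q ∈ DD K, ((Icc 1 N).filter (fun n => (n + hh q.1).Prime ∧ (n + hh q.2).Prime)).card := by
      simp only [card_filter]
      exact sum_comm
    have e2 : ∑ n ∈ Icc 1 N, (((DD K).filter (fun q => (n + hh q.1).Prime ∧ (n + hh q.2).Prime)).card : ℝ) =
        ∑ q ∈ DD K, (((Icc 1 N).filter (fun n => (n + hh q.1).Prime ∧ (n + hh q.2).Prime)).card : ℝ) := by
      exact_mod_cast e
    rw [e2]
    have h3 : ∀ q ∈ DD K, (((Icc 1 N).filter (fun n => (n + hh q.1).Prime ∧ (n + hh q.2).Prime)).card : ℝ) ≤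
        (1 + ∑ p ∈ (2 * (hh q.2 - hh q.1)).primeFactors, wt p) * (C2 * N / (Real.log N) ^ 2) := by
      rintro ⟨k, l⟩ hq
      have hq1 := mem_filter.1 hq
      have hq2 := mem_product.1 hq1.1
      have hk := mem_Icc.1 hq2.1
      have hlt : k < l := hq1.2
      simp only at hk ⊢
      have hd := hh_lt hk.1 hlt
      have h4 := h2 (hh k) N (hh l - hh k) hN (by omega)
      have h5 : ((Icc 1 N).filter (fun n => (n + hh k).Prime ∧ (n + hh l).Prime)).card ≤
          ((Ioc (hh k) (hh k + N)).filter (fun p => p.Prime ∧ (p + (hh l - hh k)).Prime)).card := by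
        apply card_le_card_of_injOn (fun n => n + hh k)
        · intro n hn
          have hn' := mem_filter.1 (mem_coe.1 hn)
          have := mem_Icc.1 hn'.1
          refine mem_coe.2 (mem_filter.2 ⟨mem_Ioc.2 ⟨?_, ?_⟩, hn'.2.1, ?_⟩)
          · show hh k < n + hh k
            omega
          · show n + hh k ≤ hh k + N
            omega
          · show (n + hh k + (hh l - hh k)).Prime
            rw [show n + hh k + (hh l - hh k) = n + hh l by omega]
            exact hn'.2.2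
        · intro a _ b _ h
          simp only at h
          omega
      have h6 : (((Icc 1 N).filter (fun n => (n + hh k).Prime ∧ (n + hh l).Prime)).card : ℝ) ≤
          (((Ioc (hh k) (hh k + N)).filter (fun p => p.Prime ∧ (p + (hh l - hh k)).Prime)).card : ℝ) := by
        exact_mod_cast h5
      refine (h6.trans h4).trans (le_of_eq ?_)
      ring
    refine (sum_le_sum h3).trans ?_
    rw [← sum_mul]
    exact mul_le_mul_of_nonneg_right (avg K hK) (by positivity)
  have h3 : ∀ n ∈ Icc 1 N, (rr K n : ℝ) ^ 2 ≤ (rr K n : ℝ) +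
      2 * (((DD K).filter (fun q => (n + hh q.1).Prime ∧ (n + hh q.2).Prime)).card : ℝ) := by
    intro n _
    exact_mod_cast rr_sq K n
  have h4 := sum_le_sum h3
  rw [sum_add_distrib, ← mul_sum] at h4
  have h5 : (K : ℝ) * (C1 * N / Real.log N) + 2 * (50 * (K : ℝ) ^ 2 * (C2 * N / (Real.log N) ^ 2)) ≤
      (C1 + 100 * C2) * ((K : ℝ) * N / Real.log N + (K : ℝ) ^ 2 * N / (Real.log N) ^ 2) := by
    have e1 : (K : ℝ) * (C1 * N / Real.log N) = C1 * ((K : ℝ) * N / Real.log N) := by ring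
    have e2 : 2 * (50 * (K : ℝ) ^ 2 * (C2 * N / (Real.log N) ^ 2)) =
        100 * C2 * ((K : ℝ) ^ 2 * N / (Real.log N) ^ 2) := by ring
    have h6 : 0 ≤ (K : ℝ) * N / Real.log N := by positivity
    have h7 : 0 ≤ (K : ℝ) ^ 2 * N / (Real.log N) ^ 2 := by positivity
    rw [e1, e2, add_mul]
    have h8 : 0 ≤ C1 * ((K : ℝ) ^ 2 * N / (Real.log N) ^ 2) := by positivity
    have h9 : 0 ≤ 100 * C2 * ((K : ℝ) * N / Real.log N) := by positivity
    nlinarith
  linarith

end Pool.Agent.H53.SU
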