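import Pool.Agent.H53.SU.Wt

/-!
# [H53 SU] The sum of `p ^ (-3/4) / ord_p(2)` over the odd primes converges
-/

set_option autoImplicit false

namespace Pool.Agent.H53.SU

open Finset

theorem sum_wt_le (n : ℕ) : ∑ j ∈ Icc 1 n, wt j ≤ 4 * fr n := by
  induction n with
  | zero => simp [fr]
  | succ n ih =>
    rw [Finset.sum_Icc_succ_top (by omega)]
    have hu : 0 < fr ((n + 1 : ℕ) : ℝ) := fr_pos (by positivity)
    have hv : 0 ≤ fr (n : ℝ) := fr_nonneg _
    have hvu : fr (n : ℝ) ≤ fr ((n + 1 : ℕ) : ℝ) := fr_mono (by push_cast; linarith)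
    have h4u := fr_four (x := ((n + 1 : ℕ) : ℝ)) (by positivity)
    have h4v := fr_four (x := (n : ℝ)) (by positivity)
    set u := fr ((n + 1 : ℕ) : ℝ)
    set v := fr (n : ℝ)
    have h1 : u ^ 4 - v ^ 4 = 1 := by rw [h4u, h4v]; push_cast; ring
    have h2 : u ^ 4 - v ^ 4 ≤ (u - v) * (4 * u ^ 3) := by
      have e : u ^ 4 - v ^ 4 = (u - v) * (u ^ 3 + u ^ 2 * v + u * v ^ 2 + v ^ 3) := by ring
      rw [e]
      apply mul_le_mul_of_nonneg_left _ (by linarith)
      have a1 : u ^ 2 * v ≤ u ^ 2 * u := mul_le_mul_of_nonneg_left hvu (by positivity)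
      have a2 : v ^ 2 ≤ u ^ 2 := pow_le_pow_left₀ hv hvu 2
      have a3 : u * v ^ 2 ≤ u * u ^ 2 := mul_le_mul_of_nonneg_left a2 hu.le
      have a4 : v ^ 3 ≤ u ^ 3 := pow_le_pow_left₀ hv hvu 3
      nlinarith
    have h3 : wt (n + 1) ≤ 4 * (u - v) := by
      unfold wt
      rw [div_le_iff₀ (by positivity)]
      show (1 : ℝ) ≤ 4 * (u - v) * u ^ 3
      nlinarith
    linarith

theorem sum_three_half (n : ℕ) :
    ∑ t ∈ Icc 1 n, 1 / ((t : ℝ) * Real.sqrt t) ≤ 4 - 4 / Real.sqrt ((n + 1 : ℕ) : ℝ) := by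
  induction n with
  | zero => simp
  | succ n ih =>
    rw [Finset.sum_Icc_succ_top (by omega)]
    have hr1 : 1 ≤ Real.sqrt ((n + 1 : ℕ) : ℝ) := by
      rw [Real.one_le_sqrt]; push_cast; linarith [Nat.cast_nonneg (α := ℝ) n]
    have hr2 : Real.sqrt ((n + 1 : ℕ) : ℝ) ^ 2 = ((n + 1 : ℕ) : ℝ) := Real.sq_sqrt (by positivity)
    have hs2 : Real.sqrt ((n + 1 + 1 : ℕ) : ℝ) ^ 2 = ((n + 1 + 1 : ℕ) : ℝ) :=
      Real.sq_sqrt (by positivity)
    have hs0 : 0 < Real.sqrt ((n + 1 + 1 : ℕ) : ℝ) := Real.sqrt_pos.2 (by positivity)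
    have hrs : Real.sqrt ((n + 1 : ℕ) : ℝ) ≤ Real.sqrt ((n + 1 + 1 : ℕ) : ℝ) :=
      Real.sqrt_le_sqrt (by push_cast; linarith)
    set r := Real.sqrt ((n + 1 : ℕ) : ℝ)
    set s := Real.sqrt ((n + 1 + 1 : ℕ) : ℝ)
    have hss : s ^ 2 = r ^ 2 + 1 := by rw [hr2, hs2]; push_cast; ring
    have hr0 : 0 < r := by linarith
    have hs15 : s ≤ 3 / 2 * r := by
      by_contra hcon
      push Not at hcon
      nlinarith
    have key : 1 / (((n + 1 : ℕ) : ℝ) * r) ≤ 4 / r - 4 / s := by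
      rw [← hr2, div_sub_div _ _ hr0.ne' hs0.ne', div_le_div_iff₀ (by positivity) (by positivity)]
      have h1 : s * (s + r) ≤ 4 * r ^ 2 * ((s - r) * (s + r)) := by
        have : (s - r) * (s + r) = 1 := by nlinarith
        rw [this]
        nlinarith
      have h2 : s ≤ 4 * r ^ 2 * (s - r) := by
        have h3 : s * (s + r) ≤ (4 * r ^ 2 * (s - r)) * (s + r) := by linarith
        exact le_of_mul_le_mul_right h3 (by linarith)
      nlinarith [mul_le_mul_of_nonneg_right h2 hr0.le]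
    linarith

theorem two_ne {p : ℕ} (hp : p.Prime) (h2 : p ≠ 2) : (2 : ZMod p) ≠ 0 := by
  intro h
  have h1 : p ∣ 2 := (ZMod.natCast_eq_zero_iff 2 p).1 (by exact_mod_cast h)
  exact h2 ((Nat.prime_dvd_prime_iff_eq hp Nat.prime_two).1 h1)

theorem ord_dvd {p : ℕ} (hp : p.Prime) (h2 : p ≠ 2) : orderOf (2 : ZMod p) ∣ p - 1 := by
  have := Fact.mk hp
  exact orderOf_dvd_of_pow_eq_one (ZMod.pow_card_sub_one_eq_one (two_ne hp h2))

theorem ord_pos {p : ℕ} (hp : p.Prime) (h2 : p ≠ 2) : 0 < orderOf (2 : ZMod p) := by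
  have h1 := ord_dvd hp h2
  have h3 : 0 < p - 1 := by have := hp.two_le; omega
  exact Nat.pos_of_dvd_of_pos h1 h3

theorem card_ord_le (t : ℕ) (F : Finset ℕ)
    (hF : ∀ p ∈ F, p.Prime ∧ p ≠ 2 ∧ orderOf (2 : ZMod p) = t) : F.card ≤ t := by
  have h1 : ∏ p ∈ F, p ∣ 2 ^ t - 1 := by
    apply Finset.prod_primes_dvd
    · intro p hp
      exact (hF p hp).1.prime
    · intro p hp
      obtain ⟨-, -, h⟩ := hF p hp
      rw [← ZMod.natCast_eq_zero_iff]
      have h2 : (2 : ZMod p) ^ t = 1 := by rw [← h]; exact pow_orderOf_eq_one _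
      rw [Nat.cast_sub Nat.one_le_two_pow]
      push_cast
      rw [h2, sub_self]
  rcases Nat.eq_zero_or_pos t with rfl | ht
  · rcases F.eq_empty_or_nonempty with rfl | ⟨p, hp⟩
    · simp
    · obtain ⟨a, b, c⟩ := hF p hp
      exact absurd c (ord_pos a b).ne'
  have h2 : 0 < 2 ^ t - 1 := by
    have : 2 ≤ 2 ^ t := by
      calc 2 = 2 ^ 1 := (pow_one 2).symm
        _ ≤ 2 ^ t := Nat.pow_le_pow_right (by norm_num) ht
    omega
  have h3 := Nat.le_of_dvd h2 h1
  have h4 : 2 ^ F.card ≤ ∏ p ∈ F, p := Finset.pow_card_le_prod _ _ _ fun p hp => (hF p hp).1.two_le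
  have h5 : 2 ^ F.card < 2 ^ t := by omega
  exact ((Nat.pow_lt_pow_iff_right (by norm_num)).1 h5).le

theorem sum_fib (t : ℕ) (ht : 1 ≤ t) (F : Finset ℕ)
    (hF : ∀ p ∈ F, p.Prime ∧ p ≠ 2 ∧ orderOf (2 : ZMod p) = t) :
    ∑ p ∈ F, wt p ≤ 5 / Real.sqrt t := by
  have ht0 : (0 : ℝ) < t := by exact_mod_cast ht
  have hst : 0 < Real.sqrt t := Real.sqrt_pos.2 ht0
  rw [← sum_filter_add_sum_filter_not F (fun p => p ≤ t ^ 2)]
  have hA : ∑ p ∈ F.filter (fun p => p ≤ t ^ 2), wt p ≤ 4 / Real.sqrt t := by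
    have hdiv : ∀ p ∈ F, p = 1 + t * ((p - 1) / t) := by
      intro p hp
      obtain ⟨a, b, c⟩ := hF p hp
      have h1 := ord_dvd a b
      rw [c] at h1
      have h2 := Nat.mul_div_cancel' h1
      have h3 := a.one_lt
      omega
    have h1 : ∑ p ∈ F.filter (fun p => p ≤ t ^ 2), wt p ≤
        ∑ p ∈ F.filter (fun p => p ≤ t ^ 2), wt (t * ((p - 1) / t)) := by
      apply sum_le_sum
      intro p hp
      rw [mem_filter] at hp
      have h2 := hdiv p hp.1
      have h3 := (hF p hp.1).1.one_lt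
      apply wt_anti
      · by_contra hcon
        have : t * ((p - 1) / t) = 0 := by omega
        omega
      · omega
    have h2 : ∑ p ∈ F.filter (fun p => p ≤ t ^ 2), wt (t * ((p - 1) / t)) ≤
        ∑ j ∈ Icc 1 t, wt (t * j) := by
      rw [← Finset.sum_image (f := fun j => wt (t * j)) (g := fun p => (p - 1) / t)
        (s := F.filter (fun p => p ≤ t ^ 2))]
      · apply sum_le_sum_of_subset_of_nonneg
        · intro j hj
          rw [mem_image] at hj
          obtain ⟨p, hp, rfl⟩ := hj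
          rw [mem_filter] at hp
          have h2 := hdiv p hp.1
          have h3 := (hF p hp.1).1.one_lt
          rw [mem_Icc]
          constructor
          · by_contra hcon
            have : (p - 1) / t = 0 := Nat.lt_one_iff.1 (not_le.1 hcon)
            rw [this] at h2
            omega
          · apply Nat.div_le_of_le_mul
            have := hp.2
            rw [pow_two] at this
            omega
        · intro j _ _
          exact wt_nonneg _
      · intro p hp q hq h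
        have hp' := hdiv p (mem_filter.1 (mem_coe.1 hp)).1
        have hq' := hdiv q (mem_filter.1 (mem_coe.1 hq)).1
        simp only at h
        rw [hp', hq', h]
    have h3 : ∑ j ∈ Icc 1 t, wt (t * j) = wt t * ∑ j ∈ Icc 1 t, wt j := by
      rw [mul_sum]
      apply sum_congr rfl
      intro j _
      unfold wt
      rw [Nat.cast_mul, fr_mul _ _ ht0.le, mul_pow, div_mul_div_comm, one_mul]
    have h4 := sum_wt_le t
    have hfr : 0 < fr (t : ℝ) := fr_pos ht0
    have h5 : wt t * ∑ j ∈ Icc 1 t, wt j ≤ wt t * (4 * fr t) :=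
      mul_le_mul_of_nonneg_left h4 (wt_nonneg _)
    have h6 : wt t * (4 * fr t) = 4 / Real.sqrt t := by
      unfold wt
      rw [← fr_sq]
      field_simp
    linarith
  have hB : ∑ p ∈ F.filter (fun p => ¬ p ≤ t ^ 2), wt p ≤ 1 / Real.sqrt t := by
    have h1 : ∀ p ∈ F.filter (fun p => ¬ p ≤ t ^ 2), wt p ≤ 1 / Real.sqrt t ^ 3 := by
      intro p hp
      rw [mem_filter, not_le] at hp
      have h2 := wt_anti (p := t ^ 2) (q := p) (Nat.one_le_pow _ _ ht) hp.2.le
      refine h2.trans (le_of_eq ?_)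
      unfold wt fr
      push_cast
      rw [Real.sqrt_sq ht0.le]
    have h2 := sum_le_card_nsmul _ _ _ h1
    rw [nsmul_eq_mul] at h2
    have h3 : ((F.filter (fun p => ¬ p ≤ t ^ 2)).card : ℝ) ≤ t := by
      have h4 := (card_filter_le F (fun p => ¬ p ≤ t ^ 2)).trans (card_ord_le t F hF)
      exact_mod_cast h4
    have h5 : ((F.filter (fun p => ¬ p ≤ t ^ 2)).card : ℝ) * (1 / Real.sqrt t ^ 3) ≤
        t * (1 / Real.sqrt t ^ 3) := mul_le_mul_of_nonneg_right h3 (by positivity)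
    have h6 : (t : ℝ) * (1 / Real.sqrt t ^ 3) = 1 / Real.sqrt t := by
      have h7 : (t : ℝ) = Real.sqrt t ^ 2 := (Real.sq_sqrt ht0.le).symm
      rw [h7, Real.sqrt_sq hst.le]
      field_simp
    linarith
  have h7 : 5 / Real.sqrt t = 4 / Real.sqrt t + 1 / Real.sqrt t := by ring
  linarith

theorem sum_ord (Y : ℕ) :
    ∑ p ∈ (range Y).filter (fun p => p.Prime ∧ p ≠ 2), wt p / (orderOf (2 : ZMod p) : ℝ) ≤ 20 := by
  have h1 : ∀ p ∈ (range Y).filter (fun p => p.Prime ∧ p ≠ 2), orderOf (2 : ZMod p) ∈ Icc 1 Y := by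
    intro p hp
    rw [mem_filter, mem_range] at hp
    obtain ⟨a, b, c⟩ := hp
    have h2 := ord_pos b c
    have h3 := Nat.le_of_dvd (by have := b.two_le; omega) (ord_dvd b c)
    rw [mem_Icc]
    omega
  rw [← Finset.sum_fiberwise_of_maps_to h1]
  have h2 : ∀ t ∈ Icc 1 Y, ∑ p ∈ ((range Y).filter (fun p => p.Prime ∧ p ≠ 2)).filter
      (fun p => orderOf (2 : ZMod p) = t), wt p / (orderOf (2 : ZMod p) : ℝ) ≤
      5 * (1 / ((t : ℝ) * Real.sqrt t)) := by
    intro t ht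
    rw [mem_Icc] at ht
    have ht0 : (0 : ℝ) < t := by exact_mod_cast ht.1
    have hst : 0 < Real.sqrt t := Real.sqrt_pos.2 ht0
    have h3 : ∑ p ∈ ((range Y).filter (fun p => p.Prime ∧ p ≠ 2)).filter
      (fun p => orderOf (2 : ZMod p) = t), wt p / (orderOf (2 : ZMod p) : ℝ) =
      (∑ p ∈ ((range Y).filter (fun p => p.Prime ∧ p ≠ 2)).filter
        (fun p => orderOf (2 : ZMod p) = t), wt p) / t := by
      rw [sum_div]
      apply sum_congr rfl
      intro p hp
      rw [mem_filter] at hp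
      rw [hp.2]
    rw [h3]
    have h4 := sum_fib t ht.1 (((range Y).filter (fun p => p.Prime ∧ p ≠ 2)).filter
      (fun p => orderOf (2 : ZMod p) = t)) (by
        intro p hp
        rw [mem_filter, mem_filter] at hp
        exact ⟨hp.1.2.1, hp.1.2.2, hp.2⟩)
    calc _ ≤ (5 / Real.sqrt t) / t := div_le_div_of_nonneg_right h4 ht0.le
      _ = 5 * (1 / ((t : ℝ) * Real.sqrt t)) := by field_simp
  refine (sum_le_sum h2).trans ?_
  rw [← mul_sum]
  have h5 := sum_three_half Y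
  have h6 : 0 ≤ 4 / Real.sqrt ((Y + 1 : ℕ) : ℝ) := by positivity
  linarith

end Pool.Agent.H53.SU
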