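import Pool.Agent.H24.LJ.Pairs

/-!
# [H53 SU] Weights `p ^ (-3/4)` and the pair sieve bound with these weights

`fr x = x ^ (1/4)`, `wt p = 1 / fr p ^ 3`.
-/

set_option autoImplicit false

namespace Pool.Agent.H53.SU

open Finset Pool.Agent.H5.W Pool.Agent.H5.Short Pool.Agent.H24.LJ

/-- the fourth root -/
noncomputable def fr (x : ℝ) : ℝ := Real.sqrt (Real.sqrt x)

theorem fr_nonneg (x : ℝ) : 0 ≤ fr x := Real.sqrt_nonneg _

theorem fr_pos {x : ℝ} (hx : 0 < x) : 0 < fr x := Real.sqrt_pos.2 (Real.sqrt_pos.2 hx)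

theorem fr_sq (x : ℝ) : fr x ^ 2 = Real.sqrt x := Real.sq_sqrt (Real.sqrt_nonneg _)

theorem fr_four {x : ℝ} (hx : 0 ≤ x) : fr x ^ 4 = x := by
  have h : fr x ^ 4 = (fr x ^ 2) ^ 2 := by ring
  rw [h, fr_sq, Real.sq_sqrt hx]

theorem fr_mono {x y : ℝ} (h : x ≤ y) : fr x ≤ fr y :=
  Real.sqrt_le_sqrt (Real.sqrt_le_sqrt h)

theorem one_le_fr {x : ℝ} (h : 1 ≤ x) : 1 ≤ fr x := by
  have := fr_mono h
  unfold fr at this ⊢
  rwa [Real.sqrt_one, Real.sqrt_one] at this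

theorem fr_mul (x y : ℝ) (hx : 0 ≤ x) : fr (x * y) = fr x * fr y := by
  unfold fr
  rw [Real.sqrt_mul hx, Real.sqrt_mul (Real.sqrt_nonneg _)]

/-- the weight `p ^ (-3/4)` -/
noncomputable def wt (p : ℕ) : ℝ := 1 / fr p ^ 3

theorem wt_nonneg (p : ℕ) : 0 ≤ wt p := by
  unfold wt
  have := fr_nonneg (p : ℝ)
  positivity

theorem wt_le_one {p : ℕ} (hp : 1 ≤ p) : wt p ≤ 1 := by
  unfold wt
  have h : 1 ≤ fr (p : ℝ) := one_le_fr (by exact_mod_cast hp)
  rw [div_le_one (by positivity)]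
  exact one_le_pow₀ h

theorem wt_anti {p q : ℕ} (hp : 1 ≤ p) (h : p ≤ q) : wt q ≤ wt p := by
  unfold wt
  have h1 : 0 < fr (p : ℝ) := fr_pos (by exact_mod_cast hp)
  have h2 : fr (p : ℝ) ≤ fr (q : ℝ) := fr_mono (by exact_mod_cast h)
  apply one_div_le_one_div_of_le (by positivity)
  exact pow_le_pow_left₀ h1.le h2 3

theorem lemmaU34 (A : ℕ) : ∃ C : ℝ, 0 < C ∧ ∀ S : Finset ℕ, (∀ p ∈ S, p.Prime) →
    (∏ p ∈ S, (1 + 1 / (p : ℝ))) ^ A ≤ C * (1 + ∑ p ∈ S, wt p) := by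
  have hl2 : 0 < Real.log 2 := Real.log_pos (by norm_num)
  set ε : ℝ := Real.log 2 / (4 * (A + 1)) with hεdef
  have hA0 : (0 : ℝ) ≤ A := Nat.cast_nonneg A
  have hε : 0 < ε := by positivity
  have hAε : A * ε ≤ Real.log 2 / 4 := by
    rw [hεdef, mul_div_assoc', div_le_div_iff₀ (by positivity) (by norm_num)]
    nlinarith
  set k₀ := ⌈4 / ε⌉₊ with hk₀def
  have hk₀ : 4 / ε ≤ k₀ := Nat.le_ceil _
  refine ⟨Real.exp (A * (2 + 4 * k₀)) * 2, by positivity, fun S hS => ?_⟩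
  set s := ∑ p ∈ S, wt p with hs
  have hs0 : 0 ≤ s := sum_nonneg fun p _ => wt_nonneg p
  set Y : ℝ := (1 + s) ^ 4 with hY
  have hY1 : 1 ≤ Y := one_le_pow₀ (by linarith)
  have hfl : ⌊Y⌋₊ ≠ 0 := by
    have := Nat.one_le_floor_iff _ |>.2 hY1
    omega
  set K := Nat.log 2 ⌊Y⌋₊ + 1 with hK
  have hK1 : Y < 2 ^ K := by
    have h1 : ⌊Y⌋₊ < 2 ^ K := Nat.lt_pow_succ_log_self (by norm_num) _
    have h2 := Nat.lt_of_floor_lt (n := 2 ^ K) h1
    exact_mod_cast h2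
  have hK2 : (2 : ℝ) ^ K ≤ 2 * Y := by
    have h1 : 2 ^ (Nat.log 2 ⌊Y⌋₊) ≤ ⌊Y⌋₊ := Nat.pow_log_le_self 2 hfl
    have h2 : ((2 ^ (Nat.log 2 ⌊Y⌋₊) : ℕ) : ℝ) ≤ Y :=
      (by exact_mod_cast h1 : ((2 ^ (Nat.log 2 ⌊Y⌋₊) : ℕ) : ℝ) ≤ (⌊Y⌋₊ : ℝ)).trans
        (Nat.floor_le (by linarith))
    rw [hK, pow_succ]
    push_cast at h2
    linarith
  -- the sum over `S`
  have hsum : ∑ p ∈ S, 1 / (p : ℝ) ≤ (1 + 4 * k₀ + ε * K) + 1 := by
    rw [← sum_filter_add_sum_filter_not S (fun p : ℕ => (p : ℝ) ≤ Y)]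
    apply add_le_add
    · calc ∑ p ∈ S.filter (fun p : ℕ => (p : ℝ) ≤ Y), 1 / (p : ℝ)
          ≤ ∑ p ∈ (Ioc 0 (2 ^ K)).filter Nat.Prime, 1 / (p : ℝ) := by
            apply sum_le_sum_of_subset_of_nonneg
            · intro p hp
              rw [mem_filter] at hp
              rw [mem_filter, mem_Ioc]
              refine ⟨⟨(hS p hp.1).pos, ?_⟩, hS p hp.1⟩
              have := hp.2.trans hK1.le
              exact_mod_cast this
            · intro p _ _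
              positivity
        _ ≤ 1 + 4 * (min K k₀ : ℕ) + ε * K := sum_recip_le k₀ ε hε hk₀ K
        _ ≤ 1 + 4 * k₀ + ε * K := by
            have : ((min K k₀ : ℕ) : ℝ) ≤ k₀ := by exact_mod_cast min_le_right _ _
            linarith
    · have h1 : ∀ p ∈ S.filter (fun p : ℕ => ¬ (p : ℝ) ≤ Y), 1 / (p : ℝ) ≤
          1 / (1 + s) * wt p := by
        intro p hp
        rw [mem_filter, not_le] at hp
        have hp0 : (0 : ℝ) < p := by linarith [hp.2]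
        have hsq : 0 < fr (p : ℝ) := fr_pos hp0
        have h2 : 1 + s ≤ fr (p : ℝ) := by
          by_contra hcon
          push Not at hcon
          have h3 : fr (p : ℝ) ^ 4 < (1 + s) ^ 4 := pow_lt_pow_left₀ hcon hsq.le (by norm_num)
          rw [fr_four hp0.le] at h3
          linarith [hp.2]
        have h3 : (p : ℝ) = fr (p : ℝ) * fr (p : ℝ) ^ 3 := by
          have := fr_four hp0.le
          nlinarith [this]
        unfold wt
        rw [div_mul_div_comm, one_mul, div_le_div_iff₀ hp0 (by positivity), one_mul, one_mul]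
        calc (1 + s) * fr (p : ℝ) ^ 3 ≤ fr (p : ℝ) * fr (p : ℝ) ^ 3 :=
              mul_le_mul_of_nonneg_right h2 (by positivity)
          _ = p := h3.symm
      calc ∑ p ∈ S.filter (fun p : ℕ => ¬ (p : ℝ) ≤ Y), 1 / (p : ℝ)
          ≤ ∑ p ∈ S.filter (fun p : ℕ => ¬ (p : ℝ) ≤ Y), 1 / (1 + s) * wt p :=
            sum_le_sum h1
        _ = 1 / (1 + s) * ∑ p ∈ S.filter (fun p : ℕ => ¬ (p : ℝ) ≤ Y), wt p := by
            rw [mul_sum]
        _ ≤ 1 / (1 + s) * s := by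
            apply mul_le_mul_of_nonneg_left _ (by positivity)
            exact sum_le_sum_of_subset_of_nonneg (filter_subset _ _) fun p _ _ => wt_nonneg p
        _ ≤ 1 := by
            rw [one_div, inv_mul_le_iff₀ (by linarith)]
            linarith
  have hprod : ∏ p ∈ S, (1 + 1 / (p : ℝ)) ≤ Real.exp (∑ p ∈ S, 1 / (p : ℝ)) := by
    rw [Real.exp_sum]
    apply prod_le_prod
    · intro p _
      positivity
    · intro p _
      rw [add_comm]
      exact Real.add_one_le_exp _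
  have hprod0 : 0 ≤ ∏ p ∈ S, (1 + 1 / (p : ℝ)) := prod_nonneg fun p _ => by positivity
  -- the exponential of `K log 2 / 4`
  set E := Real.exp (K * (Real.log 2 / 4)) with hE
  have hE0 : 0 < E := Real.exp_pos _
  have hE2 : E ^ 4 = 2 ^ K := by
    rw [hE, ← Real.exp_nat_mul]
    rw [show ((4 : ℕ) : ℝ) * (K * (Real.log 2 / 4)) = K * Real.log 2 by push_cast; ring]
    rw [Real.exp_nat_mul, Real.exp_log (by norm_num)]
  have hE3 : E ≤ 2 * (1 + s) := by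
    by_contra hcon
    push Not at hcon
    have h3 : (2 * (1 + s)) ^ 4 < E ^ 4 := pow_lt_pow_left₀ hcon (by linarith) (by norm_num)
    rw [hE2] at h3
    have h4 : (2 * (1 + s)) ^ 4 = 16 * Y := by rw [hY]; ring
    linarith
  calc (∏ p ∈ S, (1 + 1 / (p : ℝ))) ^ A
      ≤ (Real.exp (∑ p ∈ S, 1 / (p : ℝ))) ^ A := pow_le_pow_left₀ hprod0 hprod A
    _ = Real.exp (A * ∑ p ∈ S, 1 / (p : ℝ)) := by rw [Real.exp_nat_mul]
    _ ≤ Real.exp (A * (2 + 4 * k₀) + K * (Real.log 2 / 4)) := by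
        apply Real.exp_le_exp.2
        have h1 : A * ∑ p ∈ S, 1 / (p : ℝ) ≤ A * ((1 + 4 * k₀ + ε * K) + 1) :=
          mul_le_mul_of_nonneg_left hsum hA0
        have h2 : (A * ε) * K ≤ (Real.log 2 / 4) * K :=
          mul_le_mul_of_nonneg_right hAε (Nat.cast_nonneg _)
        nlinarith
    _ = Real.exp (A * (2 + 4 * k₀)) * E := by rw [Real.exp_add]
    _ ≤ Real.exp (A * (2 + 4 * k₀)) * (2 * (1 + s)) :=
        mul_le_mul_of_nonneg_left hE3 (Real.exp_pos _).le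
    _ = Real.exp (A * (2 + 4 * k₀)) * 2 * (1 + s) := by ring

end Pool.Agent.H53.SU
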